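import Mathlib

set_option autoImplicit false

/-!
# Continuation of Mellin transforms divided by the Gamma function
-/

namespace Pool.Agent.H9R3.BZ

open Filter Topology Set MeasureTheory Complex

/-- Integration by parts for Mellin transforms. -/
theorem mellin_deriv {u u' : ℝ → ℂ} {s : ℂ} (hu : ∀ x : ℝ, 0 < x → HasDerivAt u (u' x) x)
    (h1 : MellinConvergent u s) (h2 : MellinConvergent u' (s + 1))
    (h0 : Tendsto (fun x : ℝ => (x : ℂ) ^ s * u x) (𝓝[>] 0) (𝓝 0))
    (hinf : Tendsto (fun x : ℝ => (x : ℂ) ^ s * u x) atTop (𝓝 0)) :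
    mellin u' (s + 1) = -s * mellin u s := by
  have hv : ∀ x ∈ Ioi (0 : ℝ), HasDerivAt (fun x : ℝ => (x : ℂ) ^ s) (s * (x : ℂ) ^ (s - 1)) x := by
    intro x hx
    have hx0 : (0 : ℝ) < x := hx
    have h := ((hasDerivAt_id (x : ℂ)).cpow_const (c := s)
      (Or.inl (by simpa using hx0) : id (x : ℂ) ∈ slitPlane)).comp_ofReal
    simpa using h
  have hA : IntegrableOn ((fun x : ℝ => (x : ℂ) ^ s) * u') (Ioi 0) := by
    have h := h2
    unfold MellinConvergent at h
    simpa [Pi.mul_def, smul_eq_mul] using h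
  have hB : IntegrableOn ((fun x : ℝ => s * (x : ℂ) ^ (s - 1)) * u) (Ioi 0) := by
    have h := h1.const_smul s
    unfold MellinConvergent at h
    refine h.congr_fun (fun x _ => ?_) measurableSet_Ioi
    simp only [Pi.mul_apply, smul_eq_mul]
    ring
  have key := integral_Ioi_mul_deriv_eq_deriv_mul hv (fun x hx => hu x hx) hA hB h0 hinf
  unfold mellin
  have e1 : ∫ t : ℝ in Ioi 0, (t : ℂ) ^ (s + 1 - 1) • u' t = ∫ x : ℝ in Ioi 0, (x : ℂ) ^ s * u' x := by
    simp [smul_eq_mul]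
  rw [e1, key]
  simp only [smul_eq_mul, sub_zero, zero_sub]
  rw [← integral_const_mul, ← integral_neg]
  refine setIntegral_congr_fun measurableSet_Ioi fun x _ => ?_
  ring

/-- A chain of derivatives on the positive half-line, all exponentially decaying. -/
structure Chain (c : ℝ) (G : ℕ → ℝ → ℂ) : Prop where
  der : ∀ n x, 0 < x → HasDerivAt (G n) (G (n + 1) x) x
  bd : ∀ n, ∃ C : ℝ, ∀ x : ℝ, 0 < x → ‖G n x‖ ≤ C * Real.exp (-c * x)

variable {c : ℝ} {G : ℕ → ℝ → ℂ}

theorem Chain.locInt (h : Chain c G) (n : ℕ) : LocallyIntegrableOn (G n) (Ioi 0) := by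
  have : ContinuousOn (G n) (Ioi 0) := fun x hx => (h.der n x hx).continuousAt.continuousWithinAt
  exact this.locallyIntegrableOn measurableSet_Ioi

theorem Chain.top (h : Chain c G) (n : ℕ) : G n =O[atTop] fun t => Real.exp (-c * t) := by
  obtain ⟨C, hC⟩ := h.bd n
  refine Asymptotics.IsBigO.of_bound C ?_
  filter_upwards [eventually_gt_atTop 0] with x hx
  rw [Real.norm_eq_abs, abs_of_pos (Real.exp_pos _)]
  exact hC x hx

theorem Chain.bot (hc : 0 < c) (h : Chain c G) (n : ℕ) :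
    G n =O[𝓝[>] 0] fun t : ℝ => t ^ (-(0 : ℝ)) := by
  obtain ⟨C, hC⟩ := h.bd n
  refine Asymptotics.IsBigO.of_bound (max C 0) ?_
  filter_upwards [self_mem_nhdsWithin] with x hx
  have hx0 : (0 : ℝ) < x := hx
  have h1 := hC x hx0
  have h2 : Real.exp (-c * x) ≤ 1 := Real.exp_le_one_iff.2 (by nlinarith)
  rw [neg_zero, Real.rpow_zero, norm_one, mul_one]
  calc ‖G n x‖ ≤ C * Real.exp (-c * x) := h1
    _ ≤ max C 0 * Real.exp (-c * x) := by gcongr; exact le_max_left _ _
    _ ≤ max C 0 * 1 := by gcongr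
    _ = max C 0 := mul_one _

theorem Chain.conv (hc : 0 < c) (h : Chain c G) (n : ℕ) {s : ℂ} (hs : 0 < s.re) :
    MellinConvergent (G n) s :=
  mellinConvergent_of_isBigO_rpow_exp hc (h.locInt n) (h.top n) (h.bot hc n) hs

theorem Chain.diff (hc : 0 < c) (h : Chain c G) (n : ℕ) {s : ℂ} (hs : 0 < s.re) :
    DifferentiableAt ℂ (mellin (G n)) s :=
  mellin_differentiableAt_of_isBigO_rpow_exp hc (h.locInt n) (h.top n) (h.bot hc n) hs

theorem tendsto_cpow_mul_zero {u : ℝ → ℂ} {s : ℂ} {C : ℝ} {a : ℝ} (ha : 0 < s.re + a)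
    (hu : ∀ x : ℝ, 0 < x → ‖u x‖ ≤ C * x ^ a) :
    Tendsto (fun x : ℝ => (x : ℂ) ^ s * u x) (𝓝[>] 0) (𝓝 0) := by
  rw [tendsto_zero_iff_norm_tendsto_zero]
  have h1 : Tendsto (fun x : ℝ => C * x ^ (s.re + a)) (𝓝[>] 0) (𝓝 0) := by
    have h2 : Tendsto (fun x : ℝ => C * x ^ (s.re + a)) (𝓝 0) (𝓝 (C * (0:ℝ) ^ (s.re + a))) :=
      ((Real.continuousAt_rpow_const 0 (s.re + a) (Or.inr ha.le)).tendsto).const_mul C
    rw [Real.zero_rpow ha.ne', mul_zero] at h2
    exact h2.mono_left nhdsWithin_le_nhds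
  refine tendsto_of_tendsto_of_tendsto_of_le_of_le' tendsto_const_nhds h1
    (Eventually.of_forall fun x => norm_nonneg _) ?_
  filter_upwards [self_mem_nhdsWithin] with x hx
  have hx0 : (0 : ℝ) < x := hx
  rw [norm_mul, Complex.norm_cpow_eq_rpow_re_of_pos hx0, Real.rpow_add hx0]
  calc x ^ s.re * ‖u x‖ ≤ x ^ s.re * (C * x ^ a) := by
        gcongr
        exact hu x hx0
    _ = C * (x ^ s.re * x ^ a) := by ring

theorem tendsto_cpow_mul_top {u : ℝ → ℂ} {s : ℂ} {C : ℝ} {a : ℝ} (ha : s.re + a < 0)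
    (hu : ∀ x : ℝ, 0 < x → ‖u x‖ ≤ C * x ^ a) :
    Tendsto (fun x : ℝ => (x : ℂ) ^ s * u x) atTop (𝓝 0) := by
  rw [tendsto_zero_iff_norm_tendsto_zero]
  have h1 : Tendsto (fun x : ℝ => C * x ^ (s.re + a)) atTop (𝓝 0) := by
    have h2 := (tendsto_rpow_neg_atTop (y := -(s.re + a)) (by linarith)).const_mul C
    simpa using h2
  refine tendsto_of_tendsto_of_tendsto_of_le_of_le' tendsto_const_nhds h1
    (Eventually.of_forall fun x => norm_nonneg _) ?_
  filter_upwards [eventually_gt_atTop 0] with x hx0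
  rw [norm_mul, Complex.norm_cpow_eq_rpow_re_of_pos hx0, Real.rpow_add hx0]
  calc x ^ s.re * ‖u x‖ ≤ x ^ s.re * (C * x ^ a) := by
        gcongr
        exact hu x hx0
    _ = C * (x ^ s.re * x ^ a) := by ring

theorem tendsto_cpow_mul_top_exp (hc : 0 < c) {u : ℝ → ℂ} {s : ℂ} {C : ℝ}
    (hu : ∀ x : ℝ, 0 < x → ‖u x‖ ≤ C * Real.exp (-c * x)) :
    Tendsto (fun x : ℝ => (x : ℂ) ^ s * u x) atTop (𝓝 0) := by
  rw [tendsto_zero_iff_norm_tendsto_zero]
  have h1 : Tendsto (fun x : ℝ => C * (x ^ s.re * Real.exp (-c * x))) atTop (𝓝 0) := by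
    have h2 := (tendsto_rpow_mul_exp_neg_mul_atTop_nhds_zero s.re c hc).const_mul C
    simpa using h2
  refine tendsto_of_tendsto_of_tendsto_of_le_of_le' tendsto_const_nhds h1
    (Eventually.of_forall fun x => norm_nonneg _) ?_
  filter_upwards [eventually_gt_atTop 0] with x hx0
  rw [norm_mul, Complex.norm_cpow_eq_rpow_re_of_pos hx0]
  calc x ^ s.re * ‖u x‖ ≤ x ^ s.re * (C * Real.exp (-c * x)) := by
        gcongr
        exact hu x hx0
    _ = C * (x ^ s.re * Real.exp (-c * x)) := by ring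

theorem Chain.step (hc : 0 < c) (h : Chain c G) (n : ℕ) {s : ℂ} (hs : 0 < s.re) :
    mellin (G (n + 1)) (s + 1) = -s * mellin (G n) s := by
  obtain ⟨C, hC⟩ := h.bd n
  refine mellin_deriv (fun x hx => h.der n x hx) (h.conv hc n hs)
    (h.conv hc (n + 1) (by simp; linarith)) ?_ (tendsto_cpow_mul_top_exp hc hC)
  refine tendsto_cpow_mul_zero (C := max C 0) (a := 0) (by simpa using hs) fun x hx => ?_
  have h2 : Real.exp (-c * x) ≤ 1 := Real.exp_le_one_iff.2 (by nlinarith)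
  rw [Real.rpow_zero, mul_one]
  calc ‖G n x‖ ≤ C * Real.exp (-c * x) := hC x hx
    _ ≤ max C 0 * Real.exp (-c * x) := by gcongr; exact le_max_left _ _
    _ ≤ max C 0 * 1 := by gcongr
    _ = max C 0 := mul_one _

/-- The function `(-1)^n M[G_n](s + n) / Γ(s + n)`. -/
noncomputable def Fn (G : ℕ → ℝ → ℂ) (n : ℕ) (s : ℂ) : ℂ :=
  (-1) ^ n * mellin (G n) (s + n) / Gamma (s + n)

theorem Fn_succ (hc : 0 < c) (h : Chain c G) (n : ℕ) {s : ℂ} (hs : 0 < (s + n).re) :
    Fn G (n + 1) s = Fn G n s := by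
  unfold Fn
  have h1 := h.step hc n hs
  have h0 : s + n ≠ 0 := by
    intro h
    rw [h] at hs
    simp at hs
  have h2 := Complex.Gamma_add_one (s + n) h0
  have h3 : Gamma (s + n) ≠ 0 := Gamma_ne_zero_of_re_pos hs
  push_cast
  rw [← add_assoc, h1, h2, pow_succ]
  field_simp

theorem Fn_eq (hc : 0 < c) (h : Chain c G) {n m : ℕ} (hnm : n ≤ m) {s : ℂ}
    (hs : 0 < (s + n).re) : Fn G m s = Fn G n s := by
  induction m, hnm using Nat.le_induction with
  | base => rfl
  | succ k hk ih =>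
    rw [Fn_succ hc h k, ih]
    have : (n : ℝ) ≤ k := by exact_mod_cast hk
    simp only [add_re, natCast_re] at hs ⊢
    linarith

/-- The entire function continuing `M[G_0](s) / Γ(s)`. -/
noncomputable def FF (G : ℕ → ℝ → ℂ) (s : ℂ) : ℂ := Fn G (⌊-s.re⌋₊ + 1) s

theorem floor_pos (s : ℂ) : 0 < (s + ((⌊-s.re⌋₊ + 1 : ℕ) : ℂ)).re := by
  have := Nat.lt_floor_add_one (-s.re)
  simp only [add_re, natCast_re]
  push_cast
  linarith

theorem FF_eq (hc : 0 < c) (h : Chain c G) {n : ℕ} {s : ℂ} (hs : 0 < (s + n).re) :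
    FF G s = Fn G n s := by
  unfold FF
  rcases le_total (⌊-s.re⌋₊ + 1) n with h1 | h1
  · exact (Fn_eq hc h h1 (floor_pos s)).symm
  · exact Fn_eq hc h h1 hs

theorem FF_diff (hc : 0 < c) (h : Chain c G) : Differentiable ℂ (FF G) := by
  intro s
  set n := ⌊-s.re⌋₊ + 1 with hn
  have hpos : 0 < (s + (n : ℂ)).re := floor_pos s
  have hev : FF G =ᶠ[𝓝 s] Fn G n := by
    have hopen : IsOpen {z : ℂ | 0 < (z + (n : ℂ)).re} := by
      apply isOpen_lt continuous_const
      exact Complex.continuous_re.comp (continuous_id.add continuous_const)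
    filter_upwards [hopen.mem_nhds hpos] with z hz
    exact FF_eq hc h hz
  refine DifferentiableAt.congr_of_eventuallyEq ?_ hev
  unfold Fn
  have hadd : DifferentiableAt ℂ (fun z : ℂ => z + (n : ℂ)) s := by fun_prop
  have h1 : DifferentiableAt ℂ (fun z : ℂ => mellin (G n) (z + n)) s :=
    DifferentiableAt.comp (g := mellin (G n)) s (h.diff hc n hpos) hadd
  have h2 : DifferentiableAt ℂ (fun z : ℂ => Gamma (z + n)) s := by
    have h3 : DifferentiableAt ℂ Gamma (s + n) := by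
      apply Complex.differentiableAt_Gamma
      intro m hm
      rw [hm] at hpos
      simp only [neg_re, natCast_re] at hpos
      have : (0 : ℝ) ≤ m := Nat.cast_nonneg m
      linarith
    exact h3.comp s hadd
  exact (h1.const_mul _).div h2 (Gamma_ne_zero_of_re_pos hpos)

end Pool.Agent.H9R3.BZ
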