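import Pool.Agent.H9R3.BZ.A

set_option autoImplicit false

/-!
# The kernel `z^2 / (4 sinh(z/2) sinh(b z/2))`
-/

namespace Pool.Agent.H9R3.BZ

open Filter Topology Set MeasureTheory Complex

/-- `sinh z / z`. -/
noncomputable def shc (z : ℂ) : ℂ := dslope Complex.sinh 0 z

theorem shc_zero : shc 0 = 1 := by
  unfold shc
  rw [dslope_same, Complex.deriv_sinh, Complex.cosh_zero]

theorem mul_shc (z : ℂ) : z * shc z = Complex.sinh z := by
  unfold shc
  have h := sub_smul_dslope Complex.sinh 0 z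
  simpa using h

theorem shc_diff : Differentiable ℂ shc := by
  rw [← differentiableOn_univ]
  exact (Complex.differentiableOn_dslope (by simp)).2 Complex.differentiable_sinh.differentiableOn

theorem normSq_sinh (x y : ℝ) :
    ‖Complex.sinh (x + y * I)‖ ^ 2 = Real.sinh x ^ 2 + Real.sin y ^ 2 := by
  rw [← Complex.normSq_eq_norm_sq, Complex.sinh_add, Complex.sinh_mul_I, Complex.cosh_mul_I,
    ← Complex.ofReal_sinh, ← Complex.ofReal_cosh, ← Complex.ofReal_sin, ← Complex.ofReal_cos]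
  have : (Real.sinh x : ℂ) * (Real.cos y : ℂ) + (Real.cosh x : ℂ) * ((Real.sin y : ℂ) * I) =
      ((Real.sinh x * Real.cos y : ℝ) : ℂ) + ((Real.cosh x * Real.sin y : ℝ) : ℂ) * I := by
    push_cast; ring
  rw [this, Complex.normSq_add_mul_I]
  have h1 := Real.cosh_sq x
  have h2 := Real.sin_sq_add_cos_sq y
  have h3 : Real.cos y ^ 2 = 1 - Real.sin y ^ 2 := by linarith
  calc (Real.sinh x * Real.cos y) ^ 2 + (Real.cosh x * Real.sin y) ^ 2
      = Real.sinh x ^ 2 * Real.cos y ^ 2 + Real.cosh x ^ 2 * Real.sin y ^ 2 := by ring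
    _ = _ := by rw [h1, h3]; ring

theorem mul_cosh_le_sinh {x : ℝ} (hx : 0 ≤ x) : x * Real.exp (x / 2) / 2 ≤ Real.sinh x := by
  have h1 : Real.sinh x = 2 * Real.sinh (x / 2) * Real.cosh (x / 2) := by
    rw [← Real.sinh_two_mul]; congr 1; ring
  have h2 : x / 2 ≤ Real.sinh (x / 2) := Real.self_le_sinh_iff.2 (by positivity)
  have h3 : Real.exp (x / 2) / 2 ≤ Real.cosh (x / 2) := by
    rw [Real.cosh_eq]
    have := Real.exp_pos (-(x / 2))
    linarith
  have h4 := Real.exp_pos (x / 2)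
  rw [h1]
  calc x * Real.exp (x / 2) / 2 = 2 * (x / 2) * (Real.exp (x / 2) / 2) := by ring
    _ ≤ 2 * Real.sinh (x / 2) * Real.cosh (x / 2) := by gcongr

theorem sinh_sq_abs (x : ℝ) : Real.sinh |x| ^ 2 = Real.sinh x ^ 2 := by
  rcases abs_cases x with ⟨h, _⟩ | ⟨h, _⟩ <;> rw [h]
  rw [Real.sinh_neg]; ring

theorem shc_lower_aux (x y : ℝ) (hy : |y| ≤ 1 / 2) :
    (x ^ 2 + y ^ 2) * (Real.exp |x| / 9) ≤ Real.sinh x ^ 2 + Real.sin y ^ 2 := by
  have hy2 : y ^ 2 ≤ 1 / 4 := by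
    have := sq_le_sq' (by linarith [abs_nonneg y]) hy
    rw [sq_abs] at this
    linarith
  have hx0 := abs_nonneg x
  have h1 := mul_cosh_le_sinh hx0
  have h2 : (|x| * Real.exp (|x| / 2) / 2) ^ 2 ≤ Real.sinh |x| ^ 2 := by
    apply pow_le_pow_left₀ _ h1
    positivity
  rw [sinh_sq_abs] at h2
  have h3 : (|x| * Real.exp (|x| / 2) / 2) ^ 2 = x ^ 2 * Real.exp |x| / 4 := by
    rw [div_pow, mul_pow, sq_abs, ← Real.exp_nat_mul]
    congr 3
    · push_cast; ring
    · norm_num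
  rw [h3] at h2
  rcases le_or_gt 1 |x| with h | h
  · have h4 : 1 ≤ x ^ 2 := by
      rw [← sq_abs]; nlinarith
    have h5 := Real.exp_pos |x|
    have h6 := sq_nonneg (Real.sin y)
    have h7 : (x ^ 2 + y ^ 2) * (Real.exp |x| / 9) ≤ (x ^ 2 + x ^ 2 / 4) * (Real.exp |x| / 9) := by
      gcongr
      linarith
    nlinarith [mul_nonneg (sq_nonneg x) h5.le]
  · have h5 : Real.exp |x| ≤ 3 := by
      have := Real.exp_one_lt_d9
      have h6 := Real.exp_le_exp.2 h.le
      linarith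
    have h6 : x ^ 2 ≤ Real.sinh x ^ 2 := by
      rw [← sinh_sq_abs, ← sq_abs]
      exact pow_le_pow_left₀ hx0 (Real.self_le_sinh_iff.2 hx0) 2
    have h7 : y ^ 2 / 3 ≤ Real.sin y ^ 2 := by
      have h8 : 2 / Real.pi * |y| ≤ |Real.sin y| :=
        Real.mul_abs_le_abs_sin (by have := Real.pi_gt_three; linarith)
      have h9 : (3 / 5 : ℝ) ≤ 2 / Real.pi := by
        rw [div_le_div_iff₀ (by norm_num) Real.pi_pos]
        have := Real.pi_lt_d2
        linarith
      have h10 : 3 / 5 * |y| ≤ |Real.sin y| := by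
        have := mul_le_mul_of_nonneg_right h9 (abs_nonneg y)
        linarith
      have h11 : (3 / 5 * |y|) ^ 2 ≤ |Real.sin y| ^ 2 := pow_le_pow_left₀ (by positivity) h10 2
      rw [sq_abs, mul_pow, sq_abs] at h11
      nlinarith [sq_nonneg y]
    have h8 : (x ^ 2 + y ^ 2) * (Real.exp |x| / 9) ≤ (x ^ 2 + y ^ 2) * (3 / 9) := by gcongr
    nlinarith [sq_nonneg x, sq_nonneg y]

theorem shc_lower {w : ℂ} (hw : |w.im| ≤ 1 / 2) : Real.exp (|w.re| / 2) / 3 ≤ ‖shc w‖ := by
  rcases eq_or_ne w 0 with rfl | h0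
  · rw [shc_zero]
    simp
    norm_num
  have h1 : ‖w‖ ^ 2 * ‖shc w‖ ^ 2 = Real.sinh w.re ^ 2 + Real.sin w.im ^ 2 := by
    rw [← normSq_sinh, ← mul_pow, ← norm_mul, mul_shc, Complex.re_add_im]
  have h2 : ‖w‖ ^ 2 = w.re ^ 2 + w.im ^ 2 := by
    rw [← Complex.normSq_eq_norm_sq, Complex.normSq_apply]; ring
  have h3 := shc_lower_aux w.re w.im hw
  rw [← h1, ← h2] at h3
  have h4 : 0 < ‖w‖ ^ 2 := by positivity
  have h5 : Real.exp |w.re| / 9 ≤ ‖shc w‖ ^ 2 := le_of_mul_le_mul_left h3 h4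
  have h6 : (Real.exp (|w.re| / 2) / 3) ^ 2 ≤ ‖shc w‖ ^ 2 := by
    refine le_trans (le_of_eq ?_) h5
    rw [div_pow, ← Real.exp_nat_mul]
    congr 2
    · push_cast; ring
    · norm_num
  exact le_of_sq_le_sq h6 (norm_nonneg _)

theorem shc_ne_zero {w : ℂ} (hw : |w.im| ≤ 1 / 2) : shc w ≠ 0 := by
  have h := shc_lower hw
  have h1 := Real.exp_pos (|w.re| / 2)
  intro h2
  rw [h2, norm_zero] at h
  linarith

/-- `z^2 / (4 sinh(z/2) sinh(b z/2))` -/
noncomputable def Gc (b : ℝ) (z : ℂ) : ℂ := 1 / (b * shc (z / 2) * shc (b * z / 2))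

/-- half width of the strip used -/
noncomputable def kap (b : ℝ) : ℝ := 1 / (1 + b)

theorem kap_pos {b : ℝ} (hb : 0 < b) : 0 < kap b := by unfold kap; positivity

theorem im1 {b : ℝ} (hb : 0 < b) {z : ℂ} (hz : |z.im| ≤ kap b) : |(z / 2).im| ≤ 1 / 2 := by
  have h1 : (z / 2).im = z.im / 2 := by simp
  have h2 : kap b ≤ 1 := by
    unfold kap
    rw [div_le_one (by positivity)]
    linarith
  rw [h1, abs_div]
  norm_num
  linarith

theorem im2 {b : ℝ} (hb : 0 < b) {z : ℂ} (hz : |z.im| ≤ kap b) : |(b * z / 2).im| ≤ 1 / 2 := by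
  have h1 : (b * z / 2).im = b * z.im / 2 := by simp
  have h2 : b * kap b ≤ 1 := by
    unfold kap
    rw [mul_one_div, div_le_one (by positivity)]
    linarith
  rw [h1, abs_div, abs_mul, abs_of_pos hb]
  norm_num
  nlinarith

theorem Gc_bound {b : ℝ} (hb : 0 < b) {z : ℂ} (hz : |z.im| ≤ kap b) :
    ‖Gc b z‖ ≤ 9 / b * Real.exp (-((1 + b) / 4) * |z.re|) := by
  have h1 := shc_lower (im1 hb hz)
  have h2 := shc_lower (im2 hb hz)
  have e1 : |(z / 2).re| = |z.re| / 2 := by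
    have : (z / 2).re = z.re / 2 := by simp
    rw [this, abs_div]; norm_num
  have e2 : |(b * z / 2).re| = b * |z.re| / 2 := by
    have : (b * z / 2).re = b * z.re / 2 := by simp
    rw [this, abs_div, abs_mul, abs_of_pos hb]; norm_num
  rw [e1] at h1
  rw [e2] at h2
  unfold Gc
  rw [norm_div, norm_one, norm_mul, norm_mul, Complex.norm_real, Real.norm_eq_abs, abs_of_pos hb]
  have h3 : 0 < Real.exp (|z.re| / 2 / 2) / 3 := by positivity
  have h4 : 0 < Real.exp (b * |z.re| / 2 / 2) / 3 := by positivity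
  have h5 : b * (Real.exp (|z.re| / 2 / 2) / 3) * (Real.exp (b * |z.re| / 2 / 2) / 3) ≤
      b * ‖shc (z / 2)‖ * ‖shc (b * z / 2)‖ := by gcongr
  refine (one_div_le_one_div_of_le (by positivity) h5).trans (le_of_eq ?_)
  have h6 : Real.exp (-((1 + b) / 4) * |z.re|) =
      1 / (Real.exp (|z.re| / 2 / 2) * Real.exp (b * |z.re| / 2 / 2)) := by
    rw [← Real.exp_add, one_div, ← Real.exp_neg]
    congr 1
    ring
  rw [h6]
  field_simp
  norm_num

/-- the open strip -/
def strip (b : ℝ) : Set ℂ := {z : ℂ | |z.im| < kap b}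

theorem strip_open (b : ℝ) : IsOpen (strip b) :=
  isOpen_lt (continuous_abs.comp Complex.continuous_im) continuous_const

theorem Gc_diffAt {b : ℝ} (hb : 0 < b) {z : ℂ} (hz : |z.im| ≤ kap b) :
    DifferentiableAt ℂ (Gc b) z := by
  unfold Gc
  have h1 : DifferentiableAt ℂ (fun z : ℂ => shc (z / 2)) z :=
    DifferentiableAt.comp z (shc_diff _) (by fun_prop)
  have h2 : DifferentiableAt ℂ (fun z : ℂ => shc (b * z / 2)) z :=
    DifferentiableAt.comp z (shc_diff _) (by fun_prop)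
  refine (differentiableAt_const 1).div ((h1.const_mul _).mul h2) ?_
  refine mul_ne_zero (mul_ne_zero ?_ (shc_ne_zero (im1 hb hz))) (shc_ne_zero (im2 hb hz))
  exact_mod_cast hb.ne'

theorem Gc_analytic {b : ℝ} (hb : 0 < b) {z : ℂ} (hz : z ∈ strip b) : AnalyticAt ℂ (Gc b) z := by
  have h : DifferentiableOn ℂ (Gc b) (strip b) := fun w hw =>
    (Gc_diffAt hb (le_of_lt hw)).differentiableWithinAt
  exact h.analyticAt ((strip_open b).mem_nhds hz)

/-- the chain of derivatives -/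
noncomputable def GG (b : ℝ) (n : ℕ) (x : ℝ) : ℂ := iteratedDeriv n (Gc b) (x : ℂ)

theorem real_mem_strip {b : ℝ} (hb : 0 < b) (x : ℝ) : (x : ℂ) ∈ strip b := by
  simp [strip, kap_pos hb]

theorem GG_hasDeriv {b : ℝ} (hb : 0 < b) (n : ℕ) (x : ℝ) :
    HasDerivAt (GG b n) (GG b (n + 1) x) x := by
  have h1 : AnalyticAt ℂ (iteratedDeriv n (Gc b)) (x : ℂ) := by
    rw [iteratedDeriv_eq_iterate]
    exact (Gc_analytic hb (real_mem_strip hb x)).iterated_deriv n
  have h2 := h1.differentiableAt.hasDerivAt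
  rw [← iteratedDeriv_succ] at h2
  exact h2.comp_ofReal

theorem GG_bound {b : ℝ} (hb : 0 < b) (n : ℕ) : ∃ C : ℝ, 0 ≤ C ∧ ∀ x : ℝ,
    ‖GG b n x‖ ≤ C * Real.exp (-((1 + b) / 4) * |x|) := by
  set R := kap b / 2 with hR
  have hR0 : 0 < R := by have := kap_pos hb; positivity
  refine ⟨n.factorial * (9 / b * Real.exp ((1 + b) / 4 * R)) / R ^ n, by positivity, fun x => ?_⟩
  have him : ∀ z ∈ Metric.closedBall (x : ℂ) R, |z.im| ≤ kap b := by
    intro z hz
    rw [mem_closedBall_iff_norm] at hz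
    have h1 := (Complex.abs_im_le_norm (z - x)).trans hz
    simp only [sub_im, ofReal_im, sub_zero] at h1
    have := kap_pos hb
    linarith
  have hd : DiffContOnCl ℂ (Gc b) (Metric.ball (x : ℂ) R) := by
    apply DifferentiableOn.diffContOnCl
    rw [closure_ball _ hR0.ne']
    exact fun z hz => (Gc_diffAt hb (him z hz)).differentiableWithinAt
  have hC : ∀ z ∈ Metric.sphere (x : ℂ) R,
      ‖Gc b z‖ ≤ 9 / b * Real.exp ((1 + b) / 4 * R) * Real.exp (-((1 + b) / 4) * |x|) := by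
    intro z hz
    have hz1 := Metric.sphere_subset_closedBall hz
    refine (Gc_bound hb (him z hz1)).trans ?_
    rw [mem_closedBall_iff_norm] at hz1
    have h1 := (Complex.abs_re_le_norm (z - x)).trans hz1
    simp only [sub_re, ofReal_re] at h1
    have h2 : |x| - R ≤ |z.re| := by
      have h3 := abs_sub_abs_le_abs_sub x z.re
      rw [abs_sub_comm] at h3
      linarith
    rw [mul_assoc, ← Real.exp_add]
    gcongr
    nlinarith
  have h := norm_iteratedDeriv_le_of_forall_mem_sphere_norm_le n hR0 hd hC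
  unfold GG
  refine h.trans (le_of_eq ?_)
  ring

theorem chain {b : ℝ} (hb : 0 < b) : Chain ((1 + b) / 4) (GG b) :=
  ⟨fun n x _ => GG_hasDeriv hb n x, fun n => by
    obtain ⟨C, _, h⟩ := GG_bound hb n
    exact ⟨C, fun x hx => by simpa [abs_of_pos hx] using h x⟩⟩

end Pool.Agent.H9R3.BZ
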