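import Pool.Agent.H9R3.BZ.B

set_option autoImplicit false

/-!
# The Barnes double zeta-function with weights `(1, b)` and `a = (1 + b) / 2`
-/

namespace Pool.Agent.H9R3.BZ

open Filter Topology Set MeasureTheory Complex

/-- The continuation. -/
noncomputable def Zb (b : ℝ) (s : ℂ) : ℂ := FF (GG b) (s - 2) / ((s - 1) * (s - 2))

theorem Zb_diffAt {b : ℝ} (hb : 0 < b) {s : ℂ} (h1 : s ≠ 1) (h2 : s ≠ 2) :
    DifferentiableAt ℂ (Zb b) s := by
  unfold Zb
  have hF := FF_diff (by positivity : 0 < (1 + b) / 4) (chain hb)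
  have h3 : DifferentiableAt ℂ (fun s : ℂ => FF (GG b) (s - 2)) s :=
    DifferentiableAt.comp s (hF _) (by fun_prop)
  refine h3.div (by fun_prop) (mul_ne_zero (sub_ne_zero.2 h1) (sub_ne_zero.2 h2))

theorem Gc_real {b : ℝ} {t : ℝ} (ht : 0 < t) :
    Gc b t = ((t ^ 2 * (1 / (2 * Real.sinh (t / 2)) * (1 / (2 * Real.sinh (b * t / 2)))) : ℝ) : ℂ) := by
  have h1 := mul_shc ((t : ℂ) / 2)
  have h2 := mul_shc ((b : ℂ) * t / 2)
  have ht0 : (t : ℂ) ≠ 0 := by exact_mod_cast ht.ne'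
  unfold Gc
  have e1 : Complex.sinh ((t : ℂ) / 2) = ((Real.sinh (t / 2) : ℝ) : ℂ) := by push_cast; rfl
  have e2 : Complex.sinh ((b : ℂ) * t / 2) = ((Real.sinh (b * t / 2) : ℝ) : ℂ) := by push_cast; rfl
  push_cast
  rw [← h1, ← h2]
  field_simp

/-- the sequence of frequencies -/
noncomputable def lam (b : ℝ) (m : Fin 2 → ℕ) : ℝ := (1 + b) / 2 + ∑ i, (m i : ℝ) * (![1, b] : Fin 2 → ℝ) i

theorem lam_eq (b : ℝ) (m : Fin 2 → ℕ) : lam b m = (1 + b) / 2 + m 0 + m 1 * b := by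
  unfold lam
  rw [Fin.sum_univ_two]
  simp
  ring

theorem lam_pos {b : ℝ} (hb : 0 < b) (m : Fin 2 → ℕ) : 0 < lam b m := by
  rw [lam_eq]; positivity

theorem hasSum_geo {c t : ℝ} (hc : 0 < c) (ht : 0 < t) :
    HasSum (fun n : ℕ => Real.exp (-(c / 2 + n * c) * t)) (1 / (2 * Real.sinh (c * t / 2))) := by
  have hct : 0 < c * t := by positivity
  have h1 : Real.exp (-(c * t)) < 1 := Real.exp_lt_one_iff.2 (by linarith)
  have h2 := (hasSum_geometric_of_lt_one (Real.exp_pos _).le h1).mul_left (Real.exp (-(c * t / 2)))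
  have e1 : (fun n : ℕ => Real.exp (-(c / 2 + n * c) * t)) =
      fun n : ℕ => Real.exp (-(c * t / 2)) * Real.exp (-(c * t)) ^ n := by
    funext n
    rw [← Real.exp_nat_mul, ← Real.exp_add]
    congr 1
    ring
  have e2 : 1 / (2 * Real.sinh (c * t / 2)) =
      Real.exp (-(c * t / 2)) * (1 - Real.exp (-(c * t)))⁻¹ := by
    have h3 : Real.exp (-(c * t)) = Real.exp (-(c * t / 2)) * Real.exp (-(c * t / 2)) := by
      rw [← Real.exp_add]; congr 1; ring
    have h4 : Real.exp (-(c * t / 2)) * Real.exp (c * t / 2) = 1 := by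
      rw [← Real.exp_add]; simp
    have h5 : 0 < 1 - Real.exp (-(c * t)) := by linarith
    have h6 := Real.exp_pos (-(c * t / 2))
    have h8 : 1 - Real.exp (-(c * t)) = Real.exp (-(c * t / 2)) * (2 * Real.sinh (c * t / 2)) := by
      rw [Real.sinh_eq, h3]
      linear_combination -h4
    rw [h8]
    have h9 : 0 < Real.sinh (c * t / 2) := Real.sinh_pos_iff.2 (by positivity)
    field_simp
  rw [e1, e2]
  exact h2

theorem hasSum_exp {b t : ℝ} (hb : 0 < b) (ht : 0 < t) :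
    HasSum (fun m : Fin 2 → ℕ => Real.exp (-(lam b m) * t))
      (1 / (2 * Real.sinh (t / 2)) * (1 / (2 * Real.sinh (b * t / 2)))) := by
  have h1 := hasSum_geo (c := 1) one_pos ht
  have h2 := hasSum_geo hb ht
  rw [one_mul] at h1
  have hs : Summable fun x : ℕ × ℕ => Real.exp (-(1 / 2 + x.1 * 1) * t) *
      Real.exp (-(b / 2 + x.2 * b) * t) :=
    h1.summable.mul_of_nonneg h2.summable (fun _ => (Real.exp_pos _).le) (fun _ => (Real.exp_pos _).le)
  have h3 := h1.mul h2 hs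
  rw [← (finTwoArrowEquiv ℕ).hasSum_iff] at h3
  have e : (fun m : Fin 2 → ℕ => Real.exp (-(lam b m) * t)) =
      ((fun x : ℕ × ℕ => Real.exp (-(1 / 2 + x.1 * 1) * t) * Real.exp (-(b / 2 + x.2 * b) * t)) ∘
        ⇑(finTwoArrowEquiv ℕ)) := by
    funext m
    show _ = Real.exp (-(1 / 2 + (m 0 : ℝ) * 1) * t) * Real.exp (-(b / 2 + (m 1 : ℝ) * b) * t)
    rw [← Real.exp_add, lam_eq]
    congr 1
    ring
  rw [e]
  exact h3

theorem summable_lam {b σ : ℝ} (hb : 0 < b) (hσ : 2 < σ) :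
    Summable fun m : Fin 2 → ℕ => 1 / (lam b m) ^ σ := by
  set μ := min 1 b / 2 with hμ
  have hμ0 : 0 < μ := by
    have : 0 < min 1 b := lt_min one_pos hb
    positivity
  have hμ1 : μ ≤ 1 / 2 := by
    have : min 1 b ≤ 1 := min_le_left _ _
    linarith
  have hμ2 : μ ≤ b / 2 := by
    have : min 1 b ≤ b := min_le_right _ _
    linarith
  have hS : Summable fun n : ℕ => 1 / |(n : ℝ) + 1| ^ (σ / 2) :=
    (Real.summable_one_div_nat_add_rpow 1 (σ / 2)).2 (by linarith)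
  have hs : Summable fun x : ℕ × ℕ => 1 / |(x.1 : ℝ) + 1| ^ (σ / 2) * (1 / |(x.2 : ℝ) + 1| ^ (σ / 2)) :=
    hS.mul_of_nonneg hS (fun _ => by positivity) (fun _ => by positivity)
  have hs2 := (hs.mul_left (1 / μ ^ σ))
  rw [← (finTwoArrowEquiv ℕ).summable_iff] at hs2
  refine Summable.of_nonneg_of_le (fun m => ?_) (fun m => ?_) hs2
  · have := lam_pos hb m
    positivity
  · show 1 / lam b m ^ σ ≤ 1 / μ ^ σ *
      (1 / |(m 0 : ℝ) + 1| ^ (σ / 2) * (1 / |(m 1 : ℝ) + 1| ^ (σ / 2)))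
    have hl := lam_pos hb m
    have h0 : (0 : ℝ) ≤ m 0 := Nat.cast_nonneg _
    have h1 : (0 : ℝ) ≤ m 1 := Nat.cast_nonneg _
    rw [abs_of_pos (by positivity : (0 : ℝ) < m 0 + 1), abs_of_pos (by positivity : (0 : ℝ) < m 1 + 1)]
    have h2 : μ ^ σ * (((m 0 : ℝ) + 1) ^ (σ / 2) * ((m 1 : ℝ) + 1) ^ (σ / 2)) ≤ (lam b m) ^ σ := by
      have h3 : ((m 0 : ℝ) + 1) ^ (σ / 2) * ((m 1 : ℝ) + 1) ^ (σ / 2) =
          (√(((m 0 : ℝ) + 1) * ((m 1 : ℝ) + 1))) ^ σ := by
        rw [Real.sqrt_eq_rpow, ← Real.rpow_mul (by positivity), Real.mul_rpow (by positivity) (by positivity)]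
        congr 2 <;> ring
      rw [h3, ← Real.mul_rpow hμ0.le (Real.sqrt_nonneg _)]
      apply Real.rpow_le_rpow (by positivity) _ (by linarith)
      have h4 : √(((m 0 : ℝ) + 1) * ((m 1 : ℝ) + 1)) ≤ (m 0 : ℝ) + m 1 + 1 := by
        apply Real.sqrt_le_iff.2
        constructor
        · positivity
        · nlinarith [mul_nonneg h0 h1]
      calc μ * √(((m 0 : ℝ) + 1) * ((m 1 : ℝ) + 1)) ≤ μ * ((m 0 : ℝ) + m 1 + 1) := by gcongr
        _ = μ * m 0 + μ * m 1 + μ := by ring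
        _ ≤ 1 * m 0 + b * m 1 + (1 + b) / 2 := by
            gcongr
            · linarith
            · linarith
            · linarith
        _ = lam b m := by rw [lam_eq]; ring
    have h5 : 0 < μ ^ σ * (((m 0 : ℝ) + 1) ^ (σ / 2) * ((m 1 : ℝ) + 1) ^ (σ / 2)) := by positivity
    calc 1 / lam b m ^ σ ≤ 1 / (μ ^ σ * (((m 0 : ℝ) + 1) ^ (σ / 2) * ((m 1 : ℝ) + 1) ^ (σ / 2))) :=
          one_div_le_one_div_of_le h5 h2
      _ = _ := by field_simp

theorem Zb_series {b : ℝ} (hb : 0 < b) {s : ℂ} (hs : 2 < s.re) :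
    HasSum (fun m : Fin 2 → ℕ => ((lam b m : ℝ) : ℂ) ^ (-s)) (Zb b s) := by
  have hs0 : 0 < s.re := by linarith
  have hs2 : 0 < (s - 2).re := by simp; linarith
  have key := hasSum_mellin (ι := Fin 2 → ℕ) (a := fun _ => (1 : ℂ)) (p := lam b)
    (F := fun t : ℝ => (t : ℂ) ^ (-2 : ℂ) • GG b 0 t) (s := s)
    (fun i => Or.inr (lam_pos hb i)) hs0 ?_ ?_
  · have h1 : mellin (fun t : ℝ => (t : ℂ) ^ (-2 : ℂ) • GG b 0 t) s = mellin (GG b 0) (s - 2) := by
      rw [mellin_cpow_smul, sub_eq_add_neg]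
    have h2 : FF (GG b) (s - 2) = mellin (GG b 0) (s - 2) / Gamma (s - 2) := by
      rw [FF_eq (n := 0) (by positivity : 0 < (1 + b) / 4) (chain hb) (by simpa using hs2)]
      simp [Fn]
    have hG2 : Gamma (s - 2) ≠ 0 := Gamma_ne_zero_of_re_pos hs2
    have hG : Gamma s ≠ 0 := Gamma_ne_zero_of_re_pos hs0
    have hne2 : s - 2 ≠ 0 := by
      intro h
      rw [h] at hs2
      simp at hs2
    have hne1 : s - 1 ≠ 0 := by
      intro h
      have : (s - 1).re = 0 := by rw [h]; simp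
      simp at this
      linarith
    have h3 : Gamma s = (s - 1) * ((s - 2) * Gamma (s - 2)) := by
      rw [← Gamma_add_one _ hne2]
      have h4 : s - 2 + 1 = s - 1 := by ring
      rw [h4, ← Gamma_add_one _ hne1]
      congr 1
      ring
    have h5 : mellin (GG b 0) (s - 2) = Gamma s * Zb b s := by
      unfold Zb
      rw [h2, h3]
      field_simp
    rw [h1, h5] at key
    have h6 := key.div_const (Gamma s)
    rw [mul_div_cancel_left₀ _ hG] at h6
    have e : (fun m : Fin 2 → ℕ => ((lam b m : ℝ) : ℂ) ^ (-s)) =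
        fun i => Gamma s * 1 / ((lam b i : ℝ) : ℂ) ^ s / Gamma s := by
      funext m
      rw [Complex.cpow_neg]
      have : ((lam b m : ℝ) : ℂ) ^ s ≠ 0 := by
        rw [Complex.cpow_def_of_ne_zero (by exact_mod_cast (lam_pos hb m).ne')]
        exact Complex.exp_ne_zero _
      field_simp
    rw [e]
    exact h6
  · intro t ht
    have ht0 : (0 : ℝ) < t := ht
    have h1 : GG b 0 t = Gc b t := by simp [GG]
    simp only [h1]
    rw [Gc_real ht0]
    have h2 := (Complex.hasSum_ofReal.2 (hasSum_exp hb ht0))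
    have e : ((t : ℂ) ^ (-2 : ℂ)) • (((t ^ 2 * (1 / (2 * Real.sinh (t / 2)) *
        (1 / (2 * Real.sinh (b * t / 2)))) : ℝ)) : ℂ) =
        ((1 / (2 * Real.sinh (t / 2)) * (1 / (2 * Real.sinh (b * t / 2))) : ℝ) : ℂ) := by
      have h3 : ((t : ℂ) ^ (-2 : ℂ)) = ((t : ℂ) ^ 2)⁻¹ := by
        rw [Complex.cpow_neg]
        norm_num
      have ht1 : (t : ℂ) ≠ 0 := by exact_mod_cast ht0.ne'
      rw [h3, smul_eq_mul]
      push_cast
      field_simp
    rw [e]
    simpa using h2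
  · simpa using summable_lam hb hs

end Pool.Agent.H9R3.BZ
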