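import Pool.Agent.H9R3.BZ.C

set_option autoImplicit false

/-!
# The strip `0 < Re s < 2`
-/

namespace Pool.Agent.H9R3.BZ

open Filter Topology Set MeasureTheory Complex

/-- the real kernel -/
noncomputable def fb (b x : ℝ) : ℝ :=
  1 / (2 * Real.sinh (x / 2)) * (1 / (2 * Real.sinh (b * x / 2))) - 1 / (b * x ^ 2)

theorem sinh_le_mul_cosh {u : ℝ} (hu : 0 ≤ u) : Real.sinh u ≤ u * Real.cosh u := by
  have h := (convex_Icc (0 : ℝ) u).image_sub_le_mul_sub_of_deriv_le (f := Real.sinh)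
    Real.continuous_sinh.continuousOn Real.differentiable_sinh.differentiableOn (C := Real.cosh u)
    (fun x hx => by
      rw [interior_Icc] at hx
      rw [Real.deriv_sinh, Real.cosh_le_cosh, abs_of_pos hx.1, abs_of_nonneg hu]
      exact hx.2.le) 0 (by simp [hu]) u (by simp [hu]) hu
  simp only [Real.sinh_zero, sub_zero] at h
  linarith

theorem sinh_sub_le {u : ℝ} (hu : 0 ≤ u) : Real.sinh u - u ≤ u ^ 2 / 2 * Real.sinh u := by
  rcases le_or_gt (1 - u ^ 2 / 2) 0 with h | h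
  · have h1 : 0 ≤ Real.sinh u := Real.sinh_nonneg_iff.2 hu
    nlinarith
  · have h1 := sinh_le_mul_cosh hu
    have h2 := Real.cosh_le_exp_half_sq u
    have h3 : 1 - u ^ 2 / 2 ≤ Real.exp (-(u ^ 2 / 2)) := by
      have := Real.add_one_le_exp (-(u ^ 2 / 2)); linarith
    have h4 : Real.exp (u ^ 2 / 2) * Real.exp (-(u ^ 2 / 2)) = 1 := by
      rw [← Real.exp_add]; simp
    have h5 : Real.sinh u * (1 - u ^ 2 / 2) ≤ u := by
      calc Real.sinh u * (1 - u ^ 2 / 2) ≤ (u * Real.exp (u ^ 2 / 2)) * Real.exp (-(u ^ 2 / 2)) := by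
            apply mul_le_mul _ h3 h.le (by positivity)
            exact h1.trans (by gcongr)
        _ = u := by rw [mul_assoc, h4, mul_one]
    linarith

theorem fb_aux {u v : ℝ} (hu : 0 < u) (hv : 0 < v) :
    0 ≤ 1 / (u * v) - 1 / (Real.sinh u * Real.sinh v) ∧
    1 / (u * v) - 1 / (Real.sinh u * Real.sinh v) ≤ 1 / (u * v) ∧
    1 / (u * v) - 1 / (Real.sinh u * Real.sinh v) ≤ (u / v + v / u) / 2 := by
  have hsu : u ≤ Real.sinh u := Real.self_le_sinh_iff.2 hu.le
  have hsv : v ≤ Real.sinh v := Real.self_le_sinh_iff.2 hv.le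
  have hsu0 : 0 < Real.sinh u := by linarith
  have hsv0 : 0 < Real.sinh v := by linarith
  have h1 := sinh_sub_le hu.le
  have h2 := sinh_sub_le hv.le
  refine ⟨?_, ?_, ?_⟩
  · rw [sub_nonneg]
    exact one_div_le_one_div_of_le (by positivity) (mul_le_mul hsu hsv hv.le hsu0.le)
  · have : 0 < 1 / (Real.sinh u * Real.sinh v) := by positivity
    linarith
  · have e : 1 / (u * v) - 1 / (Real.sinh u * Real.sinh v) =
        (Real.sinh u - u) / (u * v * Real.sinh u) + (Real.sinh v - v) / (v * Real.sinh u * Real.sinh v) := by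
      field_simp
      ring
    have h3 : (Real.sinh u - u) / (u * v * Real.sinh u) ≤ u / v / 2 := by
      rw [div_le_iff₀ (by positivity)]
      calc Real.sinh u - u ≤ u ^ 2 / 2 * Real.sinh u := h1
        _ = u / v / 2 * (u * v * Real.sinh u) := by field_simp
    have h4 : (Real.sinh v - v) / (v * Real.sinh u * Real.sinh v) ≤ v / u / 2 := by
      rw [div_le_iff₀ (by positivity)]
      calc Real.sinh v - v ≤ v ^ 2 / 2 * Real.sinh v := h2
        _ = v / u / 2 * (v * u * Real.sinh v) := by field_simp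
        _ ≤ v / u / 2 * (v * Real.sinh u * Real.sinh v) := by gcongr
    rw [e]
    linarith

theorem fb_bounds {b x : ℝ} (hb : 0 < b) (hx : 0 < x) :
    |fb b x| ≤ 1 / (b * x ^ 2) ∧ |fb b x| ≤ (1 / b + b) / 8 := by
  have hu : 0 < x / 2 := by positivity
  have hv : 0 < b * x / 2 := by positivity
  obtain ⟨h1, h2, h3⟩ := fb_aux hu hv
  have hsu : 0 < Real.sinh (x / 2) := Real.sinh_pos_iff.2 hu
  have hsv : 0 < Real.sinh (b * x / 2) := Real.sinh_pos_iff.2 hv
  have e : fb b x = -((1 / (x / 2 * (b * x / 2)) - 1 / (Real.sinh (x / 2) * Real.sinh (b * x / 2))) / 4) := by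
    unfold fb
    field_simp
    ring
  rw [e, abs_neg, abs_of_nonneg (by positivity)]
  constructor
  · have e2 : 1 / (b * x ^ 2) = 1 / (x / 2 * (b * x / 2)) / 4 := by field_simp; norm_num
    rw [e2]
    gcongr
  · have e3 : (x / 2 / (b * x / 2) + b * x / 2 / (x / 2)) / 2 / 4 = (1 / b + b) / 8 := by
      field_simp
      norm_num
    rw [← e3]
    gcongr

/-- the complex-valued kernel -/
noncomputable def fbC (b : ℝ) (x : ℝ) : ℂ := ((fb b x : ℝ) : ℂ)

theorem GG_zero {b : ℝ} (x : ℝ) : GG b 0 x = Gc b x := by simp [GG]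

theorem Gc_sub {b x : ℝ} (hb : 0 < b) (hx : 0 < x) :
    GG b 0 x - 1 / b = ((x ^ 2 * fb b x : ℝ) : ℂ) := by
  rw [GG_zero, Gc_real hx]
  have hb0 : (b : ℂ) ≠ 0 := by exact_mod_cast hb.ne'
  have hx0 : (x : ℂ) ≠ 0 := by exact_mod_cast hx.ne'
  have e : ((1 : ℂ) / b) = ((1 / b : ℝ) : ℂ) := by push_cast; rfl
  rw [e, ← Complex.ofReal_sub]
  congr 1
  unfold fb
  field_simp

theorem shc_even (z : ℂ) : shc (-z) = shc z := by
  rcases eq_or_ne z 0 with rfl | h
  · simp
  have h1 := mul_shc (-z)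
  have h2 := mul_shc z
  rw [Complex.sinh_neg, ← h2] at h1
  have h3 : z * shc (-z) = z * shc z := by linear_combination -h1
  exact mul_left_cancel₀ h h3

theorem Gc_even (b : ℝ) (z : ℂ) : Gc b (-z) = Gc b z := by
  unfold Gc
  have e1 : -z / 2 = -(z / 2) := by ring
  have e2 : (b : ℂ) * -z / 2 = -(b * z / 2) := by ring
  rw [e1, e2, shc_even, shc_even]

theorem GG_one_zero (b : ℝ) : GG b 1 0 = 0 := by
  unfold GG
  rw [iteratedDeriv_one]
  have h1 : deriv (fun z => Gc b (-z)) 0 = -deriv (Gc b) (-0) := by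
    rw [deriv_comp_neg]
  have h2 : (fun z => Gc b (-z)) = Gc b := funext (Gc_even b)
  rw [h2] at h1
  simp only [neg_zero] at h1
  have : (2 : ℂ) * deriv (Gc b) 0 = 0 := by linear_combination h1
  simpa using this

theorem GG_one_bound {b : ℝ} (hb : 0 < b) : ∃ C : ℝ, 0 ≤ C ∧ ∀ x : ℝ, 0 < x → ‖GG b 1 x‖ ≤ C * x := by
  obtain ⟨C, hC0, hC⟩ := GG_bound hb 2
  refine ⟨C, hC0, fun x hx => ?_⟩
  have h := (convex_univ (𝕜 := ℝ) (E := ℝ)).norm_image_sub_le_of_norm_hasDerivWithin_le (f := GG b 1)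
    (f' := GG b 2) (C := C) (fun y _ => (GG_hasDeriv hb 1 y).hasDerivWithinAt) (fun y _ => ?_)
    (mem_univ (0 : ℝ)) (mem_univ x)
  · rw [GG_one_zero, sub_zero, sub_zero, Real.norm_eq_abs, abs_of_pos hx] at h
    exact h
  · refine (hC y).trans ?_
    have : Real.exp (-((1 + b) / 4) * |y|) ≤ 1 := by
      apply Real.exp_le_one_iff.2
      have : 0 ≤ (1 + b) / 4 * |y| := by positivity
      linarith
    nlinarith

theorem mellin_conv_aux {u : ℝ → ℂ} {s : ℂ} {a' b' C1 C2 : ℝ} (hu : ContinuousOn u (Ioi 0))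
    (h1 : ∀ x : ℝ, 0 < x → ‖u x‖ ≤ C1 * x ^ (-a')) (h2 : ∀ x : ℝ, 0 < x → ‖u x‖ ≤ C2 * x ^ (-b'))
    (ha : s.re < a') (hb : b' < s.re) : MellinConvergent u s := by
  refine mellinConvergent_of_isBigO_rpow (a := a') (b := b')
    (hu.locallyIntegrableOn measurableSet_Ioi) ?_ ha ?_ hb
  · refine Asymptotics.IsBigO.of_bound C1 ?_
    filter_upwards [eventually_gt_atTop 0] with x hx
    rw [Real.norm_eq_abs, abs_of_nonneg (Real.rpow_nonneg hx.le _)]
    exact h1 x hx
  · refine Asymptotics.IsBigO.of_bound C2 ?_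
    filter_upwards [self_mem_nhdsWithin] with x hx
    have hx0 : (0 : ℝ) < x := hx
    rw [Real.norm_eq_abs, abs_of_nonneg (Real.rpow_nonneg hx0.le _)]
    exact h2 x hx0

theorem GG_cont {b : ℝ} (hb : 0 < b) (n : ℕ) : ContinuousOn (GG b n) (Ioi 0) :=
  fun x _ => (GG_hasDeriv hb n x).continuousAt.continuousWithinAt

theorem u_bounds {b x : ℝ} (hb : 0 < b) (hx : 0 < x) :
    ‖GG b 0 x - 1 / b‖ ≤ 1 / b * x ^ (-(0 : ℝ)) ∧ ‖GG b 0 x - 1 / b‖ ≤ (1 / b + b) / 8 * x ^ (-(-2 : ℝ)) := by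
  rw [Gc_sub hb hx, Complex.norm_real, Real.norm_eq_abs, abs_mul, abs_of_pos (by positivity : 0 < x ^ 2)]
  obtain ⟨h1, h2⟩ := fb_bounds hb hx
  constructor
  · rw [neg_zero, Real.rpow_zero, mul_one]
    calc x ^ 2 * |fb b x| ≤ x ^ 2 * (1 / (b * x ^ 2)) := by gcongr
      _ = 1 / b := by field_simp
  · rw [neg_neg]
    have : x ^ (2 : ℝ) = x ^ 2 := by norm_num
    rw [this, mul_comm]
    gcongr

theorem mellin_fbC {b : ℝ} (hb : 0 < b) {s : ℂ} (h0 : 0 < s.re) (h2 : s.re < 2) :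
    mellin (GG b 2) s = (s - 1) * (s - 2) * mellin (fbC b) s := by
  have hc : 0 < (1 + b) / 4 := by positivity
  obtain ⟨C1, hC10, hC1⟩ := GG_one_bound hb
  obtain ⟨D1, hD10, hD1⟩ := GG_bound hb 1
  have hu : ContinuousOn (fun x => GG b 0 x - 1 / b) (Ioi 0) := (GG_cont hb 0).sub continuousOn_const
  have conv0 : MellinConvergent (fun x => GG b 0 x - 1 / b) (s - 2) :=
    mellin_conv_aux hu (a' := 0) (b' := -2) (fun x hx => (u_bounds hb hx).1)
      (fun x hx => (u_bounds hb hx).2) (by simp; linarith) (by simp; linarith)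
  have conv1 : MellinConvergent (GG b 1) (s - 1) := by
    refine mellinConvergent_of_isBigO_rpow_exp hc (b := -1) ((chain hb).locInt 1) ((chain hb).top 1) ?_
      (by simp; linarith)
    refine Asymptotics.IsBigO.of_bound C1 ?_
    filter_upwards [self_mem_nhdsWithin] with x hx
    have hx0 : (0 : ℝ) < x := hx
    simp only [neg_neg, Real.rpow_one, Real.norm_eq_abs, abs_of_pos hx0]
    exact hC1 x hx0
  have conv2 : MellinConvergent (GG b 2) s := (chain hb).conv hc 2 h0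
  have step1 : mellin (GG b 1) (s - 2 + 1) = -(s - 2) * mellin (fun x => GG b 0 x - 1 / b) (s - 2) := by
    refine mellin_deriv (fun x _ => by simpa using (GG_hasDeriv hb 0 x).sub_const (1 / (b : ℂ))) conv0
      (by convert conv1 using 1; ring) ?_ ?_
    · exact tendsto_cpow_mul_zero (a := 2) (C := (1 / b + b) / 8) (by simp; linarith)
        fun x hx => by simpa using (u_bounds hb hx).2
    · exact tendsto_cpow_mul_top (a := 0) (C := 1 / b) (by simp; linarith)
        fun x hx => by simpa using (u_bounds hb hx).1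
  have step2 : mellin (GG b 2) (s - 1 + 1) = -(s - 1) * mellin (GG b 1) (s - 1) := by
    refine mellin_deriv (fun x _ => GG_hasDeriv hb 1 x) conv1
      (by convert conv2 using 1; ring) ?_ ?_
    · exact tendsto_cpow_mul_zero (a := 1) (C := C1) (by simp; linarith)
        fun x hx => by simpa using hC1 x hx
    · exact tendsto_cpow_mul_top_exp hc (C := D1) fun x hx => by simpa [abs_of_pos hx] using hD1 x
  have e1 : s - 2 + 1 = s - 1 := by ring
  have e2 : s - 1 + 1 = s := by ring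
  rw [e1] at step1
  rw [e2] at step2
  have h3 : mellin (fun x => GG b 0 x - 1 / b) (s - 2) = mellin (fbC b) s := by
    have h4 : mellin (fun x : ℝ => (x : ℂ) ^ (2 : ℂ) • fbC b x) (s - 2) = mellin (fbC b) (s - 2 + 2) :=
      mellin_cpow_smul _ _ _
    rw [sub_add_cancel] at h4
    rw [← h4]
    unfold mellin
    refine setIntegral_congr_fun measurableSet_Ioi fun x hx => ?_
    have hx0 : (0 : ℝ) < x := hx
    simp only [Gc_sub hb hx0, fbC, smul_eq_mul]
    congr 1
    push_cast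
    norm_num
  rw [step2, step1, h3]
  ring

theorem Zb_strip {b : ℝ} (hb : 0 < b) {s : ℂ} (h0 : 0 < s.re) (h2 : s.re < 2) (h1 : s ≠ 1) :
    Zb b s = mellin (fbC b) s / Gamma s := by
  have hc : 0 < (1 + b) / 4 := by positivity
  have h3 : FF (GG b) (s - 2) = mellin (GG b 2) s / Gamma s := by
    rw [FF_eq (n := 2) hc (chain hb) (by simpa using h0)]
    unfold Fn
    simp
  have hne2 : s - 2 ≠ 0 := by
    intro h
    have : (s - 2).re = 0 := by rw [h]; simp
    simp at this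
    linarith
  have hne1 : s - 1 ≠ 0 := sub_ne_zero.2 h1
  have hG : Gamma s ≠ 0 := Gamma_ne_zero_of_re_pos h0
  unfold Zb
  rw [h3, mellin_fbC hb h0 h2]
  field_simp

theorem fbC_cont {b : ℝ} (hb : 0 < b) : ContinuousOn (fbC b) (Ioi 0) := by
  have h : ContinuousOn (fun x : ℝ => (GG b 0 x - 1 / b) / (x : ℂ) ^ 2) (Ioi 0) := by
    refine ((GG_cont hb 0).sub continuousOn_const).div (by fun_prop) fun x hx => ?_
    have hx0 : (0 : ℝ) < x := hx
    have : (x : ℂ) ≠ 0 := by exact_mod_cast hx0.ne'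
    exact pow_ne_zero 2 this
  refine h.congr fun x hx => ?_
  have hx0 : (0 : ℝ) < x := hx
  have : (x : ℂ) ≠ 0 := by exact_mod_cast hx0.ne'
  simp only [Gc_sub hb hx0, fbC]
  push_cast
  field_simp

theorem fbC_bounds {b x : ℝ} (hb : 0 < b) (hx : 0 < x) :
    ‖fbC b x‖ ≤ 1 / b * x ^ (-(2 : ℝ)) ∧ ‖fbC b x‖ ≤ (1 / b + b) / 8 * x ^ (-(0 : ℝ)) := by
  unfold fbC
  rw [Complex.norm_real, Real.norm_eq_abs]
  obtain ⟨h1, h2⟩ := fb_bounds hb hx
  constructor
  · refine h1.trans (le_of_eq ?_)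
    rw [Real.rpow_neg hx.le]
    have : x ^ (2 : ℝ) = x ^ 2 := by norm_num
    rw [this]
    field_simp
  · rw [neg_zero, Real.rpow_zero, mul_one]
    exact h2

theorem fbC_conv {b : ℝ} (hb : 0 < b) {s : ℂ} (h0 : 0 < s.re) (h2 : s.re < 2) :
    MellinConvergent (fbC b) s :=
  mellin_conv_aux (fbC_cont hb) (fun _ hx => (fbC_bounds hb hx).1) (fun _ hx => (fbC_bounds hb hx).2)
    h2 h0

end Pool.Agent.H9R3.BZ
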