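import Pool.Agent.H9R3.BZ.D

set_option autoImplicit false

/-!
# Majorants and the moments
-/

namespace Pool.Agent.H9R3.BZ

open Filter Topology Set MeasureTheory Complex

/-- dominating kernel -/
noncomputable def gd (x : ℝ) : ℂ := ((min 1 (x ^ (-(2 : ℝ))) : ℝ) : ℂ)

theorem gd_norm {x : ℝ} (hx : 0 < x) : ‖gd x‖ = min 1 (x ^ (-(2 : ℝ))) := by
  unfold gd
  rw [Complex.norm_real, Real.norm_eq_abs, abs_of_nonneg]
  exact le_min zero_le_one (Real.rpow_nonneg hx.le _)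

theorem gd_conv {s : ℂ} (h0 : 0 < s.re) (h2 : s.re < 2) : MellinConvergent gd s := by
  refine mellin_conv_aux (a' := 2) (b' := 0) (C1 := 1) (C2 := 1) ?_ (fun x hx => ?_) (fun x hx => ?_) h2 h0
  · unfold gd
    refine Complex.continuous_ofReal.comp_continuousOn ?_
    intro x hx
    have h1 : ContinuousAt (fun x : ℝ => x ^ (-(2 : ℝ))) x :=
      Real.continuousAt_rpow_const x _ (Or.inl (ne_of_gt hx))
    have h2 : ContinuousAt (fun x : ℝ => min 1 (x ^ (-(2 : ℝ)))) x :=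
      Tendsto.min tendsto_const_nhds h1
    exact h2.continuousWithinAt
  · rw [gd_norm hx, one_mul]; exact min_le_right _ _
  · rw [gd_norm hx, neg_zero, Real.rpow_zero, one_mul]; exact min_le_left _ _

theorem fbC_le_gd {b0 b x : ℝ} (hb0 : 0 < b0) (h1 : b0 / 2 < b) (h2 : b < 2 * b0) (hx : 0 < x) :
    ‖fbC b x‖ ≤ (2 / b0 + 2 * b0) * ‖gd x‖ := by
  have hb : 0 < b := by linarith
  obtain ⟨h3, h4⟩ := fbC_bounds hb hx
  have hK : 1 / b ≤ 2 / b0 := by
    rw [div_le_div_iff₀ hb hb0]; linarith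
  have hx2 : 0 ≤ x ^ (-(2 : ℝ)) := Real.rpow_nonneg hx.le _
  rw [gd_norm hx]
  rw [neg_zero, Real.rpow_zero, mul_one] at h4
  have hK0 : 0 < 2 / b0 := by positivity
  rcases le_total 1 (x ^ (-(2 : ℝ))) with h | h
  · rw [min_eq_left h, mul_one]
    linarith
  · rw [min_eq_right h]
    calc ‖fbC b x‖ ≤ 1 / b * x ^ (-(2 : ℝ)) := h3
      _ ≤ (2 / b0 + 2 * b0) * x ^ (-(2 : ℝ)) := by
        apply mul_le_mul_of_nonneg_right _ hx2
        linarith

theorem norm_mellin_le {b0 b : ℝ} (hb0 : 0 < b0) (h1 : b0 / 2 < b) (h2 : b < 2 * b0)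
    {s : ℂ} (hs0 : 0 < s.re) (hs2 : s.re < 2) :
    ‖mellin (fbC b) s‖ ≤ (2 / b0 + 2 * b0) * ∫ x in Ioi (0 : ℝ), x ^ (s.re - 1) * ‖gd x‖ := by
  unfold mellin
  refine (norm_integral_le_integral_norm _).trans ?_
  rw [← integral_const_mul]
  have hb : 0 < b := by linarith
  refine setIntegral_mono_on (fbC_conv hb hs0 hs2).norm ?_ measurableSet_Ioi fun x hx => ?_
  · have h := (gd_conv hs0 hs2).norm
    refine Integrable.const_mul (c := (2 / b0 + 2 * b0)) (f := fun x : ℝ => x ^ (s.re - 1) * ‖gd x‖) ?_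
    refine Integrable.congr h ?_
    filter_upwards [ae_restrict_mem measurableSet_Ioi] with x hx
    have hx0 : (0 : ℝ) < x := hx
    rw [norm_smul, Complex.norm_cpow_eq_rpow_re_of_pos hx0]
    simp
  · have hx0 : (0 : ℝ) < x := hx
    rw [norm_smul, Complex.norm_cpow_eq_rpow_re_of_pos hx0]
    have h3 := fbC_le_gd hb0 h1 h2 hx0
    simp only [sub_re, one_re]
    calc x ^ (s.re - 1) * ‖fbC b x‖ ≤ x ^ (s.re - 1) * ((2 / b0 + 2 * b0) * ‖gd x‖) := by gcongr
      _ = _ := by ring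

/-- The `2k`-th moment on `[1, T]`. -/
noncomputable def mom (b : ℝ) (k : ℕ) (σ T : ℝ) : ℝ := ∫ t in (1 : ℝ)..T, ‖Zb b (σ + t * I)‖ ^ (2 * k)

theorem Zb_cont {b : ℝ} (hb : 0 < b) (σ : ℝ) : ContinuousOn (fun t : ℝ => Zb b (σ + t * I)) (Ici 1) := by
  intro t ht
  have ht1 : (1 : ℝ) ≤ t := ht
  have him : ((σ : ℂ) + t * I).im = t := by simp
  have h1 : ((σ : ℂ) + t * I) ≠ 1 := by
    intro h; rw [h] at him; simp at him; linarith
  have h2 : ((σ : ℂ) + t * I) ≠ 2 := by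
    intro h; rw [h] at him; simp at him; linarith
  have h3 := (Zb_diffAt hb h1 h2).continuousAt
  have h4 : ContinuousAt (fun t : ℝ => (σ : ℂ) + t * I) t := by fun_prop
  exact (ContinuousAt.comp (f := fun t : ℝ => (σ : ℂ) + t * I) (g := Zb b) h3 h4).continuousWithinAt

end Pool.Agent.H9R3.BZ
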