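import Pool.Agent.H401R2.Stir

set_option autoImplicit false

/-!
# Upper bound for Gamma on vertical lines
-/

namespace Pool.Agent.H9R3.BZ

open Filter Topology Set MeasureTheory Complex

theorem arg_lower {σ t : ℝ} (hσ : 0 < σ) (ht : 0 < t) :
    Real.pi / 2 - σ / t ≤ arg ((σ : ℂ) + t * I) ∧ arg ((σ : ℂ) + t * I) < Real.pi / 2 := by
  set z : ℂ := (σ : ℂ) + t * I with hz
  have hre : z.re = σ := by simp [hz]
  have him : z.im = t := by simp [hz]
  have hz0 : z ≠ 0 := by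
    intro h
    rw [h] at hre
    simp at hre
    linarith
  have h1 : arg z < Real.pi / 2 := by
    have := Complex.abs_arg_lt_pi_div_two_iff.2 (Or.inl (by rw [hre]; exact hσ) : 0 < z.re ∨ z = 0)
    exact (abs_lt.1 this).2
  have h0 : 0 < arg z := by
    rcases lt_or_ge (arg z) 0 with h | h
    · have := Complex.arg_neg_iff.1 h
      linarith
    · rcases h.lt_or_eq with h' | h'
      · exact h'
      · have := Complex.arg_eq_zero_iff.1 h'.symm
        linarith [this.2]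
  refine ⟨?_, h1⟩
  have h2 : Real.cos (arg z) = σ / ‖z‖ := by rw [Complex.cos_arg hz0, hre]
  have h3 : Real.sin (arg z) = t / ‖z‖ := by rw [Complex.sin_arg, him]
  have h4 := Real.le_tan (x := Real.pi / 2 - arg z) (by linarith) (by linarith)
  rw [Real.tan_eq_sin_div_cos, Real.sin_pi_div_two_sub, Real.cos_pi_div_two_sub, h2, h3] at h4
  have hzn : 0 < ‖z‖ := norm_pos_iff.2 hz0
  have h5 : σ / ‖z‖ / (t / ‖z‖) = σ / t := by field_simp
  rw [h5] at h4
  linarith

theorem Gamma_upper {σ : ℝ} (hσ : 1 / 2 ≤ σ) {t : ℝ} (ht : 1 ≤ t) :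
    ‖Gamma ((σ : ℂ) + t * I)‖ ≤ 4 * (1 + σ) ^ (σ - 1 / 2) * t ^ (σ - 1 / 2) *
      Real.exp (-(Real.pi / 2) * t) := by
  set z : ℂ := (σ : ℂ) + t * I with hz
  have hre : z.re = σ := by simp [hz]
  have him : z.im = t := by simp [hz]
  have ht0 : 0 < t := by linarith
  have hσ0 : 0 < σ := by linarith
  have hz0 : z ≠ 0 := by
    intro h
    rw [h] at hre
    simp at hre
    linarith
  have hst := Pool.Agent.H401R2.stirling (z := z) (by rw [hre]; exact hσ0) (by rw [him]; exact ht)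
  rw [him] at hst
  have hs0 : 0 < √(2 * Real.pi) := by positivity
  have hs1 : √(2 * Real.pi) ≤ 2.6 := by
    rw [Real.sqrt_le_left (by norm_num)]
    have := Real.pi_lt_d2
    nlinarith
  have h1 : ‖Pool.Agent.H401R2.sA z‖ ≤ 4 := by
    have h2 : ‖Pool.Agent.H401R2.sA z / ((√(2 * Real.pi) : ℝ) : ℂ)‖ ≤ 1 + Real.pi / 8 := by
      have h3 : Real.pi / (8 * t) ≤ Real.pi / 8 := by
        apply div_le_div_of_nonneg_left Real.pi_pos.le (by norm_num)
        linarith
      have h4 := norm_sub_norm_le (Pool.Agent.H401R2.sA z / ((√(2 * Real.pi) : ℝ) : ℂ)) 1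
      rw [norm_one] at h4
      linarith
    rw [norm_div, Complex.norm_real, Real.norm_eq_abs, abs_of_pos hs0, div_le_iff₀ hs0] at h2
    have h5 := Real.pi_lt_d2
    have h6 := Real.pi_pos
    nlinarith
  have h2 : Gamma z = Pool.Agent.H401R2.sA z * exp ((z - 1/2) * log z - z) := by
    unfold Pool.Agent.H401R2.sA
    rw [mul_assoc, ← exp_add]
    simp
  rw [h2, norm_mul, Complex.norm_exp]
  have h3 : ((z - 1/2) * log z - z).re = (σ - 1/2) * Real.log ‖z‖ - t * arg z - σ := by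
    simp only [sub_re, mul_re, sub_im, hre, him, Complex.log_re, Complex.log_im]
    norm_num
  rw [h3]
  obtain ⟨h4, _⟩ := arg_lower hσ0 ht0
  rw [← hz] at h4
  have h5 : -(t * arg z) - σ ≤ -(Real.pi / 2) * t := by
    have h6 := mul_le_mul_of_nonneg_left h4 ht0.le
    have h7 : t * (Real.pi / 2 - σ / t) = t * (Real.pi / 2) - σ := by
      field_simp
    rw [h7] at h6
    linarith
  have hzn : 0 < ‖z‖ := norm_pos_iff.2 hz0
  have h6 : ‖z‖ ≤ (1 + σ) * t := by
    calc ‖z‖ ≤ |z.re| + |z.im| := Complex.norm_le_abs_re_add_abs_im z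
      _ = σ + t := by rw [hre, him, abs_of_pos hσ0, abs_of_pos ht0]
      _ ≤ _ := by nlinarith
  have h7 : Real.exp ((σ - 1/2) * Real.log ‖z‖ - t * arg z - σ) ≤
      ((1 + σ) ^ (σ - 1/2) * t ^ (σ - 1/2)) * Real.exp (-(Real.pi / 2) * t) := by
    have h8 : (σ - 1/2) * Real.log ‖z‖ - t * arg z - σ =
        Real.log ‖z‖ * (σ - 1/2) + (-(t * arg z) - σ) := by ring
    rw [h8, Real.exp_add, ← Real.rpow_def_of_pos hzn, ← Real.mul_rpow (by positivity) ht0.le]
    apply mul_le_mul _ (Real.exp_le_exp.2 h5) (Real.exp_pos _).le (by positivity)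
    exact Real.rpow_le_rpow hzn.le h6 (by linarith)
  calc ‖Pool.Agent.H401R2.sA z‖ * Real.exp ((σ - 1/2) * Real.log ‖z‖ - t * arg z - σ)
      ≤ 4 * (((1 + σ) ^ (σ - 1/2) * t ^ (σ - 1/2)) * Real.exp (-(Real.pi / 2) * t)) := by
        gcongr
    _ = _ := by ring

/-- absorbing a power into an exponential -/
theorem rpow_mul_exp_le {a δ t : ℝ} (ha0 : 0 ≤ a) (ha : a ≤ 2) (hδ : 0 < δ) (ht : 0 < t) :
    t ^ a * Real.exp (-δ * t) ≤ 8 * δ ^ (-a) * Real.exp (-(δ / 2) * t) := by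
  have hx : 0 < δ * t := by positivity
  have h1 : (δ * t) ^ a ≤ 8 * Real.exp (δ * t / 2) := by
    have h2 : (δ * t) ^ a ≤ 1 + (δ * t) ^ 2 := by
      rcases le_total (δ * t) 1 with h | h
      · have := Real.rpow_le_one hx.le h ha0
        nlinarith [sq_nonneg (δ * t)]
      · have := Real.rpow_le_rpow_of_exponent_le h ha
        rw [Real.rpow_two] at this
        linarith
    have h3 := Real.quadratic_le_exp_of_nonneg (x := δ * t / 2) (by positivity)
    nlinarith
  have h4 : t ^ a = δ ^ (-a) * (δ * t) ^ a := by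
    rw [Real.mul_rpow hδ.le ht.le, ← mul_assoc, ← Real.rpow_add hδ]
    simp
  have h5 : Real.exp (-δ * t) = Real.exp (-(δ / 2) * t) * Real.exp (-(δ * t / 2)) := by
    rw [← Real.exp_add]; congr 1; ring
  have h6 : Real.exp (δ * t / 2) * Real.exp (-(δ * t / 2)) = 1 := by
    rw [← Real.exp_add]; simp
  rw [h4, h5]
  have h7 : 0 < δ ^ (-a) := Real.rpow_pos_of_pos hδ _
  have h8 := Real.exp_pos (-(δ / 2) * t)
  have h9 := Real.exp_pos (-(δ * t / 2))
  calc δ ^ (-a) * (δ * t) ^ a * (Real.exp (-(δ / 2) * t) * Real.exp (-(δ * t / 2)))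
      ≤ δ ^ (-a) * (8 * Real.exp (δ * t / 2)) * (Real.exp (-(δ / 2) * t) * Real.exp (-(δ * t / 2))) := by
        gcongr
    _ = 8 * δ ^ (-a) * Real.exp (-(δ / 2) * t) * (Real.exp (δ * t / 2) * Real.exp (-(δ * t / 2))) := by
        ring
    _ = _ := by rw [h6, mul_one]

end Pool.Agent.H9R3.BZ
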