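import Pool.Agent.H9R3.BZ.F

set_option autoImplicit false

/-!
# From a moment bound to a Laplace bound
-/

namespace Pool.Agent.H9R3.BZ

open Filter Topology Set MeasureTheory

theorem laplace_fin {g : ℝ → ℝ} (hg : Continuous g) {C ε δ R : ℝ} (hC : 0 ≤ C)
    (hε0 : 0 ≤ ε) (hε1 : ε ≤ 1) (hδ : 0 < δ) (hR : 1 ≤ R)
    (hΦ : ∀ T : ℝ, 1 ≤ T → ∫ t in (1 : ℝ)..T, g t ≤ C * T ^ (1 + ε)) :
    ∫ t in (1 : ℝ)..R, Real.exp (-δ * t) * g t ≤ 24 * C * δ ^ (-(1 + ε)) := by
  set Φ : ℝ → ℝ := fun T => ∫ t in (1 : ℝ)..T, g t with hΦdef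
  have hd : ∀ x : ℝ, HasDerivAt Φ (g x) x := fun x =>
    intervalIntegral.integral_hasDerivAt_right (hg.intervalIntegrable _ _)
      (hg.stronglyMeasurableAtFilter _ _) hg.continuousAt
  have hcΦ : Continuous Φ := continuous_iff_continuousAt.2 fun x => (hd x).continuousAt
  have he : ∀ x : ℝ, HasDerivAt (fun t => Real.exp (-δ * t)) (-δ * Real.exp (-δ * x)) x := by
    intro x
    have h := ((hasDerivAt_id x).const_mul (-δ)).exp
    simp only [id_eq, mul_one] at h
    rwa [mul_comm] at h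
  have hparts := intervalIntegral.integral_mul_deriv_eq_deriv_mul (a := 1) (b := R)
    (u := fun t => Real.exp (-δ * t)) (v := Φ) (u' := fun x => -δ * Real.exp (-δ * x)) (v' := g)
    (fun x _ => he x) (fun x _ => hd x) (by apply Continuous.intervalIntegrable; fun_prop)
    (hg.intervalIntegrable _ _)
  have hΦ1 : Φ 1 = 0 := by simp [hΦdef]
  rw [hparts, hΦ1, mul_zero, sub_zero]
  have hD : 0 < δ ^ (-(1 + ε)) := Real.rpow_pos_of_pos hδ _
  have hb : ∀ t : ℝ, 1 ≤ t → Real.exp (-δ * t) * Φ t ≤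
      8 * C * δ ^ (-(1 + ε)) * Real.exp (-(δ / 2) * t) := by
    intro t ht
    have h1 := rpow_mul_exp_le (a := 1 + ε) (by linarith) (by linarith) hδ (by linarith : 0 < t)
    have h2 := hΦ t ht
    calc Real.exp (-δ * t) * Φ t ≤ Real.exp (-δ * t) * (C * t ^ (1 + ε)) := by
          exact mul_le_mul_of_nonneg_left h2 (Real.exp_pos _).le
      _ = C * (t ^ (1 + ε) * Real.exp (-δ * t)) := by ring
      _ ≤ C * (8 * δ ^ (-(1 + ε)) * Real.exp (-(δ / 2) * t)) := by gcongr
      _ = _ := by ring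
  have h1 : Real.exp (-δ * R) * Φ R ≤ 8 * C * δ ^ (-(1 + ε)) := by
    refine (hb R hR).trans ?_
    have : Real.exp (-(δ / 2) * R) ≤ 1 := Real.exp_le_one_iff.2 (by nlinarith)
    have h8 : 0 ≤ 8 * C * δ ^ (-(1 + ε)) := by positivity
    nlinarith
  have h2 : -∫ x in (1 : ℝ)..R, -δ * Real.exp (-δ * x) * Φ x ≤ 16 * C * δ ^ (-(1 + ε)) := by
    rw [← intervalIntegral.integral_neg]
    have h3 : ∫ x in (1 : ℝ)..R, -(-δ * Real.exp (-δ * x) * Φ x) ≤
        ∫ x in (1 : ℝ)..R, δ * (8 * C * δ ^ (-(1 + ε))) * Real.exp (-(δ / 2) * x) := by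
      apply intervalIntegral.integral_mono_on hR
      · apply Continuous.intervalIntegrable; fun_prop
      · apply Continuous.intervalIntegrable; fun_prop
      · intro x hx
        have h4 := mul_le_mul_of_nonneg_left (hb x hx.1) hδ.le
        calc -(-δ * Real.exp (-δ * x) * Φ x) = δ * (Real.exp (-δ * x) * Φ x) := by ring
          _ ≤ _ := h4
          _ = _ := by ring
    refine h3.trans ?_
    rw [intervalIntegral.integral_const_mul]
    have h5 : ∫ x in (1 : ℝ)..R, Real.exp (-(δ / 2) * x) ≤ 2 / δ := by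
      have hF : ∀ x ∈ uIcc (1 : ℝ) R, HasDerivAt (fun t => -(2 / δ) * Real.exp (-(δ / 2) * t))
          (Real.exp (-(δ / 2) * x)) x := by
        intro x _
        have h := (((hasDerivAt_id x).const_mul (-(δ / 2))).exp).const_mul (-(2 / δ))
        simp only [id_eq, mul_one] at h
        refine h.congr_deriv ?_
        field_simp
      rw [intervalIntegral.integral_eq_sub_of_hasDerivAt hF
        (by apply Continuous.intervalIntegrable; fun_prop)]
      have h6 : Real.exp (-(δ / 2) * 1) ≤ 1 := Real.exp_le_one_iff.2 (by linarith)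
      have h7 := Real.exp_pos (-(δ / 2) * R)
      have h8 : 0 < 2 / δ := by positivity
      nlinarith
    calc δ * (8 * C * δ ^ (-(1 + ε))) * ∫ x in (1 : ℝ)..R, Real.exp (-(δ / 2) * x)
        ≤ δ * (8 * C * δ ^ (-(1 + ε))) * (2 / δ) := by gcongr
      _ = _ := by field_simp; ring
  linarith

theorem laplace {g : ℝ → ℝ} (hg : Continuous g) (h0 : ∀ t, 0 ≤ g t) {C ε δ : ℝ} (hC : 0 ≤ C)
    (hε0 : 0 ≤ ε) (hε1 : ε ≤ 1) (hδ : 0 < δ)
    (hΦ : ∀ T : ℝ, 1 ≤ T → ∫ t in (1 : ℝ)..T, g t ≤ C * T ^ (1 + ε)) :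
    IntegrableOn (fun t => Real.exp (-δ * t) * g t) (Ioi 1) ∧
    ∫ t in Ioi (1 : ℝ), Real.exp (-δ * t) * g t ≤ 24 * C * δ ^ (-(1 + ε)) := by
  have hc : Continuous (fun t => Real.exp (-δ * t) * g t) := by fun_prop
  have hI : IntegrableOn (fun t => Real.exp (-δ * t) * g t) (Ioi 1) := by
    refine integrableOn_Ioi_of_intervalIntegral_norm_bounded (24 * C * δ ^ (-(1 + ε))) 1
      (b := fun R : ℝ => R) (l := atTop) (fun i => ?_) tendsto_id ?_
    · exact hc.integrableOn_Icc.mono_set Ioc_subset_Icc_self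
    · filter_upwards [eventually_ge_atTop 1] with R hR
      have h := laplace_fin hg hC hε0 hε1 hδ hR hΦ
      refine le_trans (le_of_eq ?_) h
      refine intervalIntegral.integral_congr fun x _ => ?_
      simp only [norm_mul, Real.norm_eq_abs, Real.abs_exp, abs_of_nonneg (h0 x)]
  refine ⟨hI, ?_⟩
  refine le_of_tendsto (intervalIntegral_tendsto_integral_Ioi 1 hI tendsto_id) ?_
  filter_upwards [eventually_ge_atTop 1] with R hR
  exact laplace_fin hg hC hε0 hε1 hδ hR hΦ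

end Pool.Agent.H9R3.BZ
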