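import Pool.Agent.H9R3.BZ.E
import Pool.Agent.H9R3.BZ.G

set_option autoImplicit false

/-!
# Inverse Mellin transforms on the half-plane
-/

namespace Pool.Agent.H9R3.BZ

open Filter Topology Set MeasureTheory Complex

theorem abs_arg_le {z : ℂ} (hz : z ≠ 0) {c : ℝ} (h : c * ‖z‖ ≤ z.re) : |arg z| ≤ Real.arccos c := by
  have hzn : 0 < ‖z‖ := norm_pos_iff.2 hz
  have h1 : c ≤ Real.cos |arg z| := by
    rw [Real.cos_abs, Complex.cos_arg hz, le_div_iff₀ hzn]
    exact h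
  have h2 := Real.arccos_le_arccos h1
  rwa [Real.arccos_cos (abs_nonneg _) (Complex.abs_arg_le_pi z)] at h2

theorem norm_cpow_le {z : ℂ} (hz : z ≠ 0) (σ t : ℝ) {θ : ℝ} (h : |arg z| ≤ θ) :
    ‖z ^ (-((σ : ℂ) + t * I))‖ ≤ ‖z‖ ^ (-σ) * Real.exp (θ * |t|) := by
  rw [Complex.norm_cpow_of_ne_zero hz]
  have e1 : (-((σ : ℂ) + t * I)).re = -σ := by simp
  have e2 : (-((σ : ℂ) + t * I)).im = -t := by simp
  rw [e1, e2, div_eq_mul_inv, ← Real.exp_neg]
  apply mul_le_mul_of_nonneg_left _ (Real.rpow_nonneg (norm_nonneg _) _)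
  apply Real.exp_le_exp.2
  calc -(arg z * -t) = arg z * t := by ring
    _ ≤ |arg z * t| := le_abs_self _
    _ = |arg z| * |t| := abs_mul _ _
    _ ≤ θ * |t| := by gcongr

/-- holomorphy of the inverse Mellin transform -/
theorem inv_diff {M : ℝ → ℂ} (hM : Continuous M) {σ : ℝ} (hσ : 0 < σ)
    (hint : ∀ δ : ℝ, 0 < δ → δ ≤ 1 → Integrable (fun t => Real.exp ((Real.pi / 2 - δ) * |t|) * ‖M t‖))
    {z0 : ℂ} (hz0 : 0 < z0.re) :
    DifferentiableAt ℂ (fun z : ℂ => ∫ t : ℝ, z ^ (-((σ : ℂ) + t * I)) * M t) z0 := by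
  set r := z0.re with hr
  have hR : 0 < ‖z0‖ := by
    apply norm_pos_iff.2
    intro h
    rw [h] at hr
    simp at hr
    linarith
  have hrR : r ≤ ‖z0‖ := (le_abs_self _).trans (Complex.abs_re_le_norm z0)
  set c : ℝ := r / (4 * ‖z0‖) with hc
  have hc0 : 0 < c := by positivity
  have hc1 : c < 1 := by
    rw [hc, div_lt_one (by positivity)]
    linarith
  set δ : ℝ := Real.arcsin c / 2 with hδ
  have has : 0 < Real.arcsin c := Real.arcsin_pos.2 hc0
  have has2 : Real.arcsin c ≤ Real.pi / 2 := Real.arcsin_le_pi_div_two c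
  have hδ0 : 0 < δ := by positivity
  have hδ1 : δ ≤ 1 := by
    have := Real.pi_lt_d2
    rw [hδ]; linarith
  have hball : ∀ z ∈ Metric.ball z0 (r / 2), r / 2 < z.re ∧ ‖z‖ < 2 * ‖z0‖ ∧ z ≠ 0 ∧
      |arg z| ≤ Real.pi / 2 - 2 * δ := by
    intro z hz
    rw [mem_ball_iff_norm] at hz
    have h1 := (Complex.abs_re_le_norm (z - z0)).trans_lt hz
    simp only [sub_re] at h1
    have h2 := (abs_lt.1 h1).1
    have h3 : ‖z‖ < 2 * ‖z0‖ := by
      have h4 := norm_sub_norm_le z z0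
      have : r / 2 < ‖z0‖ := by linarith
      linarith
    have h5 : r / 2 < z.re := by linarith
    have h6 : z ≠ 0 := by
      intro h
      rw [h] at h5
      simp at h5
      linarith
    refine ⟨h5, h3, h6, ?_⟩
    have h7 : c * ‖z‖ ≤ z.re := by
      calc c * ‖z‖ ≤ c * (2 * ‖z0‖) := by gcongr
        _ = r / 2 := by rw [hc]; field_simp; ring
        _ ≤ z.re := h5.le
    have h8 := abs_arg_le h6 h7
    rw [Real.arccos_eq_pi_div_two_sub_arcsin] at h8
    rw [hδ]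
    linarith
  have hcont : ∀ z : ℂ, z ≠ 0 → Continuous fun t : ℝ => z ^ (-((σ : ℂ) + t * I)) := by
    intro z hz
    have : ∀ w : ℂ, z ^ w = exp (log z * w) := fun w => Complex.cpow_def_of_ne_zero hz w
    simp only [this]
    fun_prop
  have hmem : z0 ∈ Metric.ball z0 (r / 2) := Metric.mem_ball_self (by positivity)
  have key := hasDerivAt_integral_of_dominated_loc_of_deriv_le (𝕜 := ℂ) (μ := volume)
    (F := fun (z : ℂ) (t : ℝ) => z ^ (-((σ : ℂ) + t * I)) * M t)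
    (F' := fun (z : ℂ) (t : ℝ) => (-((σ : ℂ) + t * I)) * z ^ (-((σ : ℂ) + t * I) - 1) * M t)
    (x₀ := z0) (s := Metric.ball z0 (r / 2))
    (bound := fun t => (r / 2) ^ (-(σ + 1)) * ((σ + 1) * (1 / δ)) *
      (Real.exp ((Real.pi / 2 - δ) * |t|) * ‖M t‖))
    (Metric.ball_mem_nhds z0 (by positivity)) ?_ ?_ ?_ ?_ ?_ ?_
  · exact key.2.differentiableAt
  · filter_upwards [Metric.ball_mem_nhds z0 (by positivity : 0 < r / 2)] with z hz
    exact ((hcont z (hball z hz).2.2.1).mul hM).aestronglyMeasurable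
  · refine Integrable.mono' ((hint δ hδ0 hδ1).const_mul (‖z0‖ ^ (-σ)))
      ((hcont z0 (hball z0 hmem).2.2.1).mul hM).aestronglyMeasurable (ae_of_all _ fun t => ?_)
    have h1 := norm_cpow_le (hball z0 hmem).2.2.1 σ t (θ := Real.pi / 2 - δ)
      ((hball z0 hmem).2.2.2.trans (by linarith))
    rw [norm_mul]
    calc ‖z0 ^ (-((σ : ℂ) + t * I))‖ * ‖M t‖ ≤
        ‖z0‖ ^ (-σ) * Real.exp ((Real.pi / 2 - δ) * |t|) * ‖M t‖ := by gcongr
      _ = _ := by ring
  · have h1 : Continuous fun t : ℝ => z0 ^ (-((σ : ℂ) + t * I) - 1) := by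
      have h2 : ∀ w : ℂ, z0 ^ w = exp (log z0 * w) :=
        fun w => Complex.cpow_def_of_ne_zero (hball z0 hmem).2.2.1 w
      simp only [h2]
      fun_prop
    exact (((by fun_prop : Continuous fun t : ℝ => (-((σ : ℂ) + t * I))).mul h1).mul
      hM).aestronglyMeasurable
  · refine ae_of_all _ fun t z hz => ?_
    obtain ⟨h1, h2, h3, h4⟩ := hball z hz
    have h5 := norm_cpow_le h3 σ t h4
    have h6 : z ^ (-((σ : ℂ) + t * I) - 1) = z ^ (-((σ : ℂ) + t * I)) * z⁻¹ := by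
      rw [Complex.cpow_sub _ _ h3, Complex.cpow_one, div_eq_mul_inv]
    have hzr : r / 2 ≤ ‖z‖ := h1.le.trans ((le_abs_self _).trans (Complex.abs_re_le_norm z))
    have h7 : ‖z‖ ^ (-σ) * ‖z‖⁻¹ ≤ (r / 2) ^ (-(σ + 1)) := by
      have hz0' : 0 < ‖z‖ := norm_pos_iff.2 h3
      have h8 : ‖z‖ ^ (-σ) * ‖z‖⁻¹ = ‖z‖ ^ (-(σ + 1)) := by
        rw [← Real.rpow_neg_one, ← Real.rpow_add hz0']
        congr 1
        ring
      rw [h8]
      exact Real.rpow_le_rpow_of_nonpos (by positivity) hzr (by linarith)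
    have h8 : ‖-((σ : ℂ) + t * I)‖ ≤ σ + |t| := by
      rw [norm_neg]
      refine (norm_add_le _ _).trans ?_
      rw [norm_mul, Complex.norm_I, Complex.norm_real, Complex.norm_real, Real.norm_eq_abs,
        Real.norm_eq_abs, abs_of_pos hσ, mul_one]
    have h9 : (σ + |t|) * Real.exp ((Real.pi / 2 - 2 * δ) * |t|) ≤
        (σ + 1) * (1 / δ) * Real.exp ((Real.pi / 2 - δ) * |t|) := by
      have h10 : Real.exp ((Real.pi / 2 - δ) * |t|) =
          Real.exp ((Real.pi / 2 - 2 * δ) * |t|) * Real.exp (δ * |t|) := by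
        rw [← Real.exp_add]; congr 1; ring
      have h11 := Real.add_one_le_exp (δ * |t|)
      have h12 : σ + |t| ≤ (σ + 1) * (1 / δ) * Real.exp (δ * |t|) := by
        have h13 : (σ + 1) * (1 / δ) * (δ * |t| + 1) ≤ (σ + 1) * (1 / δ) * Real.exp (δ * |t|) := by
          gcongr
        refine le_trans ?_ h13
        have h14 : 1 ≤ 1 / δ := by rw [le_div_iff₀ hδ0]; linarith
        have h15 : (σ + 1) * (1 / δ) * (δ * |t| + 1) = (σ + 1) * |t| + (σ + 1) * (1 / δ) := by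
          field_simp
        rw [h15]
        have h16 := abs_nonneg t
        nlinarith
      rw [h10]
      have h17 := Real.exp_pos ((Real.pi / 2 - 2 * δ) * |t|)
      nlinarith
    rw [norm_mul, norm_mul, h6, norm_mul, norm_inv]
    have hM0 := norm_nonneg (M t)
    have hzi : 0 ≤ ‖z‖⁻¹ := inv_nonneg.2 (norm_nonneg z)
    calc ‖-((σ : ℂ) + t * I)‖ * (‖z ^ (-((σ : ℂ) + t * I))‖ * ‖z‖⁻¹) * ‖M t‖
        ≤ (σ + |t|) * ((‖z‖ ^ (-σ) * Real.exp ((Real.pi / 2 - 2 * δ) * |t|)) * ‖z‖⁻¹) * ‖M t‖ := by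
          gcongr
      _ = (‖z‖ ^ (-σ) * ‖z‖⁻¹) * ((σ + |t|) * Real.exp ((Real.pi / 2 - 2 * δ) * |t|)) * ‖M t‖ := by
          ring
      _ ≤ (r / 2) ^ (-(σ + 1)) * ((σ + 1) * (1 / δ) * Real.exp ((Real.pi / 2 - δ) * |t|)) * ‖M t‖ := by
          gcongr
      _ = _ := by ring
  · exact (hint δ hδ0 hδ1).const_mul _
  · refine ae_of_all _ fun t z hz => ?_
    have h3 := (hball z hz).2.2.1
    have h4 : z ∈ slitPlane := by
      left
      have := (hball z hz).1
      linarith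
    exact ((hasDerivAt_id z).cpow_const h4 |>.congr_deriv (by simp)).mul_const _

end Pool.Agent.H9R3.BZ
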