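import Pool.Agent.H9R3.BZ.H

set_option autoImplicit false

/-!
# Bounds for the Mellin transform from a moment bound
-/

namespace Pool.Agent.H9R3.BZ

open Filter Topology Set MeasureTheory Complex

/-- the Mellin transform on a vertical line -/
noncomputable def Mt (b σ t : ℝ) : ℂ := mellin (fbC b) (σ + t * I)

theorem fbC_diff {b : ℝ} (hb : 0 < b) {s : ℂ} (h0 : 0 < s.re) (h2 : s.re < 2) :
    DifferentiableAt ℂ (mellin (fbC b)) s := by
  refine mellin_differentiableAt_of_isBigO_rpow (a := 2) (b := 0)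
    ((fbC_cont hb).locallyIntegrableOn measurableSet_Ioi) ?_ h2 ?_ h0
  · refine Asymptotics.IsBigO.of_bound (1 / b) ?_
    filter_upwards [eventually_gt_atTop 0] with x hx
    rw [Real.norm_eq_abs, abs_of_nonneg (Real.rpow_nonneg hx.le _)]
    exact (fbC_bounds hb hx).1
  · refine Asymptotics.IsBigO.of_bound ((1 / b + b) / 8) ?_
    filter_upwards [self_mem_nhdsWithin] with x hx
    have hx0 : (0 : ℝ) < x := hx
    rw [Real.norm_eq_abs, abs_of_nonneg (Real.rpow_nonneg hx0.le _)]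
    exact (fbC_bounds hb hx0).2

theorem line_re (σ t : ℝ) : ((σ : ℂ) + t * I).re = σ := by simp

theorem line_im (σ t : ℝ) : ((σ : ℂ) + t * I).im = t := by simp

theorem Mt_cont {b : ℝ} (hb : 0 < b) {σ : ℝ} (h0 : 0 < σ) (h2 : σ < 2) : Continuous (Mt b σ) := by
  rw [continuous_iff_continuousAt]
  intro t
  have h3 := (fbC_diff hb (s := σ + t * I) (by rw [line_re]; exact h0) (by rw [line_re]; exact h2)).continuousAt
  exact ContinuousAt.comp (f := fun t : ℝ => (σ : ℂ) + t * I) (g := mellin (fbC b)) h3 (by fun_prop)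

theorem Mt_neg (b σ t : ℝ) : ‖Mt b σ (-t)‖ = ‖Mt b σ t‖ := by
  have h : Mt b σ (-t) = (starRingEnd ℂ) (Mt b σ t) := by
    unfold Mt mellin
    rw [← integral_conj]
    refine setIntegral_congr_fun measurableSet_Ioi fun x hx => ?_
    have hx0 : (0 : ℝ) < x := hx
    simp only [smul_eq_mul, map_mul, fbC, Complex.conj_ofReal]
    congr 1
    have harg : ((x : ℝ) : ℂ).arg ≠ Real.pi := by
      rw [Complex.arg_ofReal_of_nonneg hx0.le]
      exact Real.pi_pos.ne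
    rw [← Complex.conj_ofReal x, Complex.conj_cpow _ _ harg, Complex.conj_ofReal]
    congr 2
    simp
  rw [h, RCLike.norm_conj]

theorem Mt_abs (b σ t : ℝ) : ‖Mt b σ |t|‖ = ‖Mt b σ t‖ := by
  rcases abs_cases t with ⟨h, _⟩ | ⟨h, _⟩
  · rw [h]
  · rw [h, Mt_neg]

theorem Mt_bdd {b : ℝ} (hb : 0 < b) {σ : ℝ} (h0 : 0 < σ) (h2 : σ < 2) :
    ∃ A : ℝ, 0 ≤ A ∧ ∀ t, ‖Mt b σ t‖ ≤ A := by
  have h : ∀ t, ‖Mt b σ t‖ ≤ (2 / b + 2 * b) * ∫ x in Ioi (0 : ℝ), x ^ (σ - 1) * ‖gd x‖ := by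
    intro t
    have := norm_mellin_le hb (b := b) (by linarith) (by linarith) (s := σ + t * I)
      (by rw [line_re]; exact h0) (by rw [line_re]; exact h2)
    rwa [line_re] at this
  exact ⟨_, (norm_nonneg _).trans (h 0), h⟩

/-- majorant for `‖Zb‖` -/
noncomputable def gk (b σ : ℝ) (k : ℕ) (t : ℝ) : ℝ :=
  1 + ‖Zb b (σ + ((max t 1 : ℝ) : ℂ) * I)‖ ^ (2 * k)

theorem gk_cont {b : ℝ} (hb : 0 < b) (σ : ℝ) (k : ℕ) : Continuous (gk b σ k) := by
  have h := Zb_cont hb σ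
  have h1 : Continuous (fun t : ℝ => Zb b (σ + ((max t 1 : ℝ) : ℂ) * I)) :=
    h.comp_continuous (f := fun t : ℝ => max t 1) (continuous_id.max continuous_const)
      (fun t => le_max_right t 1)
  unfold gk
  exact continuous_const.add (h1.norm.pow _)

theorem gk_nonneg (b σ : ℝ) (k : ℕ) (t : ℝ) : 0 ≤ gk b σ k t := by
  unfold gk; positivity

theorem le_gk {b σ : ℝ} {k : ℕ} (hk : 1 ≤ k) {t : ℝ} (ht : 1 ≤ t) :
    ‖Zb b (σ + t * I)‖ ≤ gk b σ k t := by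
  unfold gk
  rw [max_eq_left ht]
  rcases le_total ‖Zb b (σ + t * I)‖ 1 with h | h
  · have : 0 ≤ ‖Zb b (σ + t * I)‖ ^ (2 * k) := by positivity
    linarith
  · have : ‖Zb b (σ + t * I)‖ ≤ ‖Zb b (σ + t * I)‖ ^ (2 * k) := le_self_pow₀ h (by omega)
    linarith

theorem Mt_le {b : ℝ} (hb : 0 < b) {σ : ℝ} (h0 : 1 / 2 ≤ σ) (h2 : σ < 2) {k : ℕ} (hk : 1 ≤ k)
    {t : ℝ} (ht : 1 ≤ t) :
    ‖Mt b σ t‖ ≤ 4 * (1 + σ) ^ (σ - 1 / 2) * t ^ (σ - 1 / 2) * Real.exp (-(Real.pi / 2) * t) *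
      gk b σ k t := by
  have hne : ((σ : ℂ) + t * I) ≠ 1 := by
    intro h
    have := line_im σ t
    rw [h] at this; simp at this; linarith
  have h1 := Zb_strip hb (s := σ + t * I) (by rw [line_re]; linarith) (by rw [line_re]; exact h2) hne
  have hG : Gamma ((σ : ℂ) + t * I) ≠ 0 := Gamma_ne_zero_of_re_pos (by rw [line_re]; linarith)
  have h3 : Mt b σ t = Gamma ((σ : ℂ) + t * I) * Zb b (σ + t * I) := by
    rw [h1]; unfold Mt; field_simp
  rw [h3, norm_mul]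
  exact mul_le_mul (Gamma_upper h0 ht) (le_gk hk ht) (norm_nonneg _)
    (by have := h0; have := ht; positivity)

theorem integrable_abs {H : ℝ → ℝ} (hI : IntegrableOn H (Ioi 0)) : Integrable (fun x => H |x|) := by
  have hf : IntegrableOn (fun x => H |x|) (Ioi 0) := by
    refine hI.congr_fun (fun x hx => ?_) measurableSet_Ioi
    rw [abs_of_pos hx]
  have int_Iic : IntegrableOn (fun x ↦ H |x|) (Iic 0) := by
    rw [← Measure.map_neg_eq_self (volume : Measure ℝ)]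
    let m : MeasurableEmbedding fun x : ℝ => -x := (Homeomorph.neg ℝ).measurableEmbedding
    rw [m.integrableOn_map_iff]
    simp_rw [Function.comp_def, abs_neg, neg_preimage, neg_Iic, neg_zero]
    exact Iff.mpr integrableOn_Ici_iff_integrableOn_Ioi hf
  rw [← integrableOn_univ, ← Iic_union_Ioi (a := (0 : ℝ))]
  exact int_Iic.union hf

theorem K_bound {b : ℝ} (hb : 0 < b) {σ : ℝ} (h0 : 1 / 2 ≤ σ) (h2 : σ < 2) {k : ℕ} (hk : 1 ≤ k)
    {C ε : ℝ} (hC : 0 ≤ C) (hε0 : 0 ≤ ε) (hε1 : ε ≤ 1)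
    (hΦ : ∀ T : ℝ, 1 ≤ T → ∫ t in (1 : ℝ)..T, gk b σ k t ≤ C * T ^ (1 + ε)) :
    ∃ C' : ℝ, 0 ≤ C' ∧ ∀ δ : ℝ, 0 < δ → δ ≤ 1 →
      Integrable (fun t => Real.exp ((Real.pi / 2 - δ) * |t|) * ‖Mt b σ t‖) ∧
      ∫ t, Real.exp ((Real.pi / 2 - δ) * |t|) * ‖Mt b σ t‖ ≤ C' * δ ^ (-(σ + 1 / 2 + ε)) := by
  obtain ⟨A, hA0, hA⟩ := Mt_bdd hb (σ := σ) (by linarith) h2
  set D : ℝ := 4 * (1 + σ) ^ (σ - 1 / 2) with hD
  have hD0 : 0 < D := by have := h0; positivity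
  refine ⟨2 * (Real.exp (Real.pi / 2) * A + 8 * D * (24 * C * (2 : ℝ) ^ (1 + ε))), by positivity,
    fun δ hδ0 hδ1 => ?_⟩
  set H : ℝ → ℝ := fun t => Real.exp ((Real.pi / 2 - δ) * t) * ‖Mt b σ t‖ with hH
  have hHc : Continuous H := by
    have := (Mt_cont hb (by linarith) h2 : Continuous (Mt b σ)).norm
    fun_prop
  have hH0 : ∀ t, 0 ≤ H t := fun t => by rw [hH]; positivity
  have hpi := Real.pi_gt_three
  obtain ⟨hL1, hL2⟩ := laplace (gk_cont hb σ k) (gk_nonneg b σ k) hC hε0 hε1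
    (by positivity : 0 < δ / 2) hΦ
  -- bound on (1, ∞)
  have hpt : ∀ t : ℝ, 1 ≤ t → H t ≤ 8 * D * δ ^ (-(σ - 1 / 2)) * (Real.exp (-(δ / 2) * t) * gk b σ k t) := by
    intro t ht
    have h3 := Mt_le hb h0 h2 hk ht
    have h4 := rpow_mul_exp_le (a := σ - 1 / 2) (by linarith) (by linarith) hδ0 (by linarith : 0 < t)
    have h5 := gk_nonneg b σ k t
    have h6 : Real.exp ((Real.pi / 2 - δ) * t) * Real.exp (-(Real.pi / 2) * t) = Real.exp (-δ * t) := by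
      rw [← Real.exp_add]; congr 1; ring
    calc H t ≤ Real.exp ((Real.pi / 2 - δ) * t) * (D * t ^ (σ - 1 / 2) *
          Real.exp (-(Real.pi / 2) * t) * gk b σ k t) :=
          mul_le_mul_of_nonneg_left h3 (Real.exp_pos _).le
      _ = D * (t ^ (σ - 1 / 2) * (Real.exp ((Real.pi / 2 - δ) * t) *
          Real.exp (-(Real.pi / 2) * t))) * gk b σ k t := by ring
      _ = D * (t ^ (σ - 1 / 2) * Real.exp (-δ * t)) * gk b σ k t := by rw [h6]
      _ ≤ D * (8 * δ ^ (-(σ - 1 / 2)) * Real.exp (-(δ / 2) * t)) * gk b σ k t := by gcongr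
      _ = _ := by ring
  have hI1 : IntegrableOn H (Ioi 1) := by
    refine Integrable.mono' (hL1.integrable.const_mul (8 * D * δ ^ (-(σ - 1 / 2))))
      hHc.aestronglyMeasurable ?_
    filter_upwards [ae_restrict_mem measurableSet_Ioi] with t ht
    rw [Real.norm_eq_abs, abs_of_nonneg (hH0 t)]
    exact hpt t (le_of_lt ht)
  have hI0 : IntegrableOn H (Ioc 0 1) := hHc.integrableOn_Icc.mono_set Ioc_subset_Icc_self
  have hI : IntegrableOn H (Ioi 0) := by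
    rw [← Ioc_union_Ioi_eq_Ioi (zero_le_one : (0 : ℝ) ≤ 1)]
    exact hI0.union hI1
  have hb1 : ∫ t in Ioi (1 : ℝ), H t ≤ 8 * D * (24 * C * (2 : ℝ) ^ (1 + ε)) * δ ^ (-(σ + 1 / 2 + ε)) := by
    have h3 : ∫ t in Ioi (1 : ℝ), H t ≤
        ∫ t in Ioi (1 : ℝ), 8 * D * δ ^ (-(σ - 1 / 2)) * (Real.exp (-(δ / 2) * t) * gk b σ k t) :=
      setIntegral_mono_on hI1 (hL1.integrable.const_mul _) measurableSet_Ioi
        fun t ht => hpt t (le_of_lt ht)
    rw [integral_const_mul] at h3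
    refine h3.trans ?_
    have h4 : 0 ≤ 8 * D * δ ^ (-(σ - 1 / 2)) := by positivity
    refine (mul_le_mul_of_nonneg_left hL2 h4).trans (le_of_eq ?_)
    have h5 : (δ / 2) ^ (-(1 + ε)) = (2 : ℝ) ^ (1 + ε) * δ ^ (-(1 + ε)) := by
      rw [Real.div_rpow hδ0.le (by norm_num), Real.rpow_neg (by norm_num : (0 : ℝ) ≤ 2), div_inv_eq_mul]
      ring
    have h6 : δ ^ (-(σ + 1 / 2 + ε)) = δ ^ (-(σ - 1 / 2)) * δ ^ (-(1 + ε)) := by
      rw [← Real.rpow_add hδ0]; congr 1; ring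
    rw [h5, h6]
    ring
  have hb0 : ∫ t in Ioc (0 : ℝ) 1, H t ≤ Real.exp (Real.pi / 2) * A * δ ^ (-(σ + 1 / 2 + ε)) := by
    have h3 : ∀ t ∈ Ioc (0 : ℝ) 1, H t ≤ Real.exp (Real.pi / 2) * A := by
      intro t ht
      have h4 : (Real.pi / 2 - δ) * t ≤ Real.pi / 2 := by nlinarith [ht.1, ht.2]
      exact mul_le_mul (Real.exp_le_exp.2 h4) (hA t) (norm_nonneg _) (Real.exp_pos _).le
    have h4 : ∫ t in Ioc (0 : ℝ) 1, H t ≤ ∫ t in Ioc (0 : ℝ) 1, Real.exp (Real.pi / 2) * A :=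
      setIntegral_mono_on hI0 (continuous_const.integrableOn_Icc.mono_set Ioc_subset_Icc_self)
        measurableSet_Ioc h3
    have h5 : ∫ t in Ioc (0 : ℝ) 1, Real.exp (Real.pi / 2) * A = Real.exp (Real.pi / 2) * A := by
      simp
    rw [h5] at h4
    have h6 : 1 ≤ δ ^ (-(σ + 1 / 2 + ε)) := by
      apply Real.one_le_rpow_of_pos_of_le_one_of_nonpos hδ0 hδ1
      linarith
    have h7 : 0 ≤ Real.exp (Real.pi / 2) * A := by positivity
    nlinarith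
  have hcomp : (fun t => Real.exp ((Real.pi / 2 - δ) * |t|) * ‖Mt b σ t‖) = fun t => H |t| := by
    funext t
    rw [hH]
    simp only [Mt_abs]
  rw [hcomp]
  refine ⟨?_, ?_⟩
  · exact integrable_abs hI
  · rw [integral_comp_abs, ← Ioc_union_Ioi_eq_Ioi (zero_le_one : (0 : ℝ) ≤ 1),
      setIntegral_union Ioc_disjoint_Ioi_same measurableSet_Ioi hI0 hI1]
    linarith

end Pool.Agent.H9R3.BZ
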