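import Pool.Agent.H9R3.BZ.J

set_option autoImplicit false

/-!
# Large moments for rational weights
-/

namespace Pool.Agent.H9R3.BZ

open Filter Topology Set MeasureTheory Complex

/-- the complex kernel -/
noncomputable def fz (b : ℝ) (z : ℂ) : ℂ :=
  1 / (2 * Complex.sinh (z / 2)) * (1 / (2 * Complex.sinh (b * z / 2))) - 1 / (b * z ^ 2)

theorem fz_real (b x : ℝ) : fz b x = fbC b x := by
  unfold fz fbC fb
  push_cast
  ring

theorem norm_sinh_sq (w : ℂ) : ‖Complex.sinh w‖ ^ 2 = Real.sinh w.re ^ 2 + Real.sin w.im ^ 2 := by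
  rw [← normSq_sinh, Complex.re_add_im]

theorem sinh_ne_zero_of_re {w : ℂ} (hw : 0 < w.re) : Complex.sinh w ≠ 0 := by
  intro h
  have h1 := norm_sinh_sq w
  rw [h, norm_zero] at h1
  have h2 : 0 < Real.sinh w.re := Real.sinh_pos_iff.2 hw
  have h3 := sq_nonneg (Real.sin w.im)
  have h4 : 0 < Real.sinh w.re ^ 2 := by positivity
  norm_num at h1
  linarith

theorem fz_diff {b : ℝ} (hb : 0 < b) {z : ℂ} (hz : 0 < z.re) : DifferentiableAt ℂ (fz b) z := by
  have h1 : Complex.sinh (z / 2) ≠ 0 := by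
    apply sinh_ne_zero_of_re
    simpa using hz
  have h2 : Complex.sinh (b * z / 2) ≠ 0 := by
    apply sinh_ne_zero_of_re
    have : ((b : ℂ) * z / 2).re = b * z.re / 2 := by simp
    rw [this]
    positivity
  have hz0 : z ≠ 0 := by
    rintro rfl
    simp at hz
  have hb0 : (b : ℂ) ≠ 0 := by exact_mod_cast hb.ne'
  unfold fz
  refine DifferentiableAt.sub (DifferentiableAt.mul ?_ ?_) ?_
  · exact (differentiableAt_const _).div (by fun_prop) (mul_ne_zero two_ne_zero h1)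
  · exact (differentiableAt_const _).div (by fun_prop) (mul_ne_zero two_ne_zero h2)
  · exact (differentiableAt_const _).div (by fun_prop) (mul_ne_zero hb0 (pow_ne_zero 2 hz0))

/-- Mellin inversion on the half-plane. -/
theorem inversion {b : ℝ} (hb : 0 < b) {σ : ℝ} (h0 : 0 < σ) (h2 : σ < 2)
    (hint : ∀ δ : ℝ, 0 < δ → δ ≤ 1 →
      Integrable (fun t => Real.exp ((Real.pi / 2 - δ) * |t|) * ‖Mt b σ t‖))
    {z : ℂ} (hz : 0 < z.re) :
    (1 / (2 * Real.pi) : ℂ) * ∫ t : ℝ, z ^ (-((σ : ℂ) + t * I)) * Mt b σ t = fz b z := by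
  have hU : IsOpen {z : ℂ | 0 < z.re} := isOpen_lt continuous_const Complex.continuous_re
  have hpre : IsPreconnected {z : ℂ | 0 < z.re} := (convex_halfSpace_re_gt 0).isPreconnected
  have hMc := Mt_cont hb h0 h2
  have h1 : AnalyticOnNhd ℂ (fun z : ℂ => (1 / (2 * Real.pi) : ℂ) *
      ∫ t : ℝ, z ^ (-((σ : ℂ) + t * I)) * Mt b σ t) {z : ℂ | 0 < z.re} := by
    refine DifferentiableOn.analyticOnNhd (fun z hz => ?_) hU
    exact ((inv_diff hMc h0 hint hz).const_mul _).differentiableWithinAt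
  have h3 : AnalyticOnNhd ℂ (fz b) {z : ℂ | 0 < z.re} :=
    DifferentiableOn.analyticOnNhd (fun z hz => (fz_diff hb hz).differentiableWithinAt) hU
  refine h1.eqOn_of_preconnected_of_frequently_eq h3 hpre (z₀ := 1) (by simp) ?_ hz
  have ht : Tendsto (fun x : ℝ => (x : ℂ)) (𝓝[≠] 1) (𝓝[≠] (1 : ℂ)) := by
    refine tendsto_nhdsWithin_iff.2 ⟨?_, ?_⟩
    · exact (Complex.continuous_ofReal.tendsto' (1:ℝ) (1:ℂ) (by simp)).mono_left nhdsWithin_le_nhds
    · filter_upwards [self_mem_nhdsWithin] with x hx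
      simp only [mem_compl_iff, mem_singleton_iff] at hx ⊢
      exact_mod_cast hx
  refine ht.frequently (Eventually.frequently ?_)
  have hpos : ∀ᶠ x : ℝ in 𝓝[≠] 1, 0 < x := nhdsWithin_le_nhds (lt_mem_nhds one_pos)
  filter_upwards [hpos] with x hx
  have hconv : MellinConvergent (fbC b) (σ : ℂ) := fbC_conv hb (by simpa using h0) (by simpa using h2)
  have hvi : VerticalIntegrable (mellin (fbC b)) σ := by
    refine Integrable.mono' (hint 1 one_pos le_rfl) hMc.aestronglyMeasurable (ae_of_all _ fun t => ?_)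
    have h4 : 1 ≤ Real.exp ((Real.pi / 2 - 1) * |t|) := by
      apply Real.one_le_exp
      have := Real.pi_gt_three
      have := abs_nonneg t
      nlinarith
    have h5 := norm_nonneg (Mt b σ t)
    show ‖Mt b σ t‖ ≤ _
    nlinarith
  have hcont : ContinuousAt (fbC b) x := (fbC_cont hb).continuousAt (Ioi_mem_nhds hx)
  have key := mellinInv_mellin_eq σ (fbC b) hx hconv hvi hcont
  rw [fz_real, ← key]
  unfold mellinInv Mt
  simp only [smul_eq_mul, Complex.real_smul]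
  push_cast
  rfl

theorem self_le_arcsin {x : ℝ} (h0 : 0 ≤ x) (h1 : x ≤ 1) : x ≤ Real.arcsin x := by
  have h2 : Real.arcsin (Real.sin x) = x := by
    apply Real.arcsin_sin
    · linarith [Real.pi_pos]
    · linarith [Real.pi_gt_three]
  calc x = Real.arcsin (Real.sin x) := h2.symm
    _ ≤ Real.arcsin x := Real.arcsin_le_arcsin (Real.sin_le h0)

/-- the constant in the lower bound -/
noncomputable def c1 (b : ℝ) : ℝ := 1 / (2 * Real.cosh (1 / 2) * (b / 2 * Real.cosh (b / 2) + Real.pi))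

theorem c1_pos {b : ℝ} (hb : 0 < b) : 0 < c1 b := by
  unfold c1
  have := Real.cosh_pos (1 / 2)
  have := Real.cosh_pos (b / 2)
  have := Real.pi_pos
  positivity

/-- The key inequality: a good rational approximation `p / q` of the weight `b`, together with an
upper bound for the weighted integral of the Mellin transform. -/
theorem key_ineq {b : ℝ} (hb : 0 < b) {σ : ℝ} (h0 : 1 / 2 ≤ σ) (hσ2 : σ < 2) {e1 C' : ℝ}
    (hK : ∀ δ : ℝ, 0 < δ → δ ≤ 1 →
      Integrable (fun t => Real.exp ((Real.pi / 2 - δ) * |t|) * ‖Mt b σ t‖) ∧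
      ∫ t, Real.exp ((Real.pi / 2 - δ) * |t|) * ‖Mt b σ t‖ ≤ C' * δ ^ (-e1))
    {q : ℕ} (hq : 1 ≤ q) {p : ℤ} {η : ℝ} (hη0 : 0 < η) (hη1 : η ≤ 1) (hpq : |b * q - p| ≤ η) :
    c1 b ≤ η ^ 2 / b + C' * (8 * (q : ℝ)) ^ e1 * η ^ (2 - e1) := by
  have hq1 : (1 : ℝ) ≤ q := by exact_mod_cast hq
  have hq0 : (0 : ℝ) < q := by linarith
  have hσ0 : 0 < σ := by linarith
  have hpi := Real.pi_gt_three
  have hpi2 := Real.pi_lt_d2
  set Q : ℝ := 8 * q with hQ
  have hQ1 : 1 ≤ Q := by rw [hQ]; linarith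
  set z : ℂ := (η : ℂ) + ((2 * Real.pi * q : ℝ) : ℂ) * I with hz
  have hzre : z.re = η := by rw [hz, line_re]
  have hzim : z.im = 2 * Real.pi * q := by rw [hz, line_im]
  have hzre0 : 0 < z.re := by rw [hzre]; exact hη0
  have hz0 : z ≠ 0 := by
    intro h
    rw [h] at hzre0
    simp at hzre0
  have hz1 : 1 ≤ ‖z‖ := by
    calc (1 : ℝ) ≤ 2 * Real.pi * q := by nlinarith
      _ = z.im := hzim.symm
      _ ≤ |z.im| := le_abs_self _
      _ ≤ ‖z‖ := Complex.abs_im_le_norm z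
  have hzQ : ‖z‖ ≤ Q := by
    calc ‖z‖ ≤ |z.re| + |z.im| := Complex.norm_le_abs_re_add_abs_im z
      _ = η + 2 * Real.pi * q := by
        rw [hzre, hzim, abs_of_pos hη0, abs_of_pos (by positivity)]
      _ ≤ Q := by rw [hQ]; nlinarith
  set δ : ℝ := η / Q with hδ
  have hδ0 : 0 < δ := by positivity
  have hδ1 : δ ≤ 1 := by
    rw [hδ, div_le_one (by linarith)]
    linarith
  have harg : |arg z| ≤ Real.pi / 2 - δ := by
    have h3 := abs_arg_le hz0 (c := δ) (by
      rw [hzre, hδ]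
      calc η / Q * ‖z‖ ≤ η / Q * Q := by gcongr
        _ = η := by field_simp)
    rw [Real.arccos_eq_pi_div_two_sub_arcsin] at h3
    have h4 := self_le_arcsin hδ0.le hδ1
    linarith
  obtain ⟨hI, hIb⟩ := hK δ hδ0 hδ1
  have hinv := inversion hb hσ0 hσ2 (fun δ h1 h2 => (hK δ h1 h2).1) hzre0
  -- upper bound
  have hup : ‖fz b z‖ ≤ C' * δ ^ (-e1) := by
    rw [← hinv, norm_mul]
    have h3 : ‖(1 / (2 * Real.pi) : ℂ)‖ ≤ 1 := by
      rw [norm_div, norm_mul, norm_one, Complex.norm_real, Real.norm_eq_abs,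
        abs_of_pos Real.pi_pos, div_le_one (by norm_num; exact Real.pi_pos)]
      norm_num
      linarith
    have h4 : ‖∫ t : ℝ, z ^ (-((σ : ℂ) + t * I)) * Mt b σ t‖ ≤ C' * δ ^ (-e1) := by
      refine (norm_integral_le_of_norm_le hI (ae_of_all _ fun t => ?_)).trans hIb
      rw [norm_mul]
      have h5 := norm_cpow_le hz0 σ t harg
      have h6 : ‖z‖ ^ (-σ) ≤ 1 := Real.rpow_le_one_of_one_le_of_nonpos hz1 (by linarith)
      have h7 := Real.exp_pos ((Real.pi / 2 - δ) * |t|)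
      have h8 : ‖z ^ (-((σ : ℂ) + t * I))‖ ≤ Real.exp ((Real.pi / 2 - δ) * |t|) := by
        refine h5.trans ?_
        nlinarith
      gcongr
    calc ‖(1 / (2 * Real.pi) : ℂ)‖ * ‖∫ t : ℝ, z ^ (-((σ : ℂ) + t * I)) * Mt b σ t‖
        ≤ 1 * (C' * δ ^ (-e1)) := by gcongr
      _ = _ := one_mul _
  -- lower bound
  have hs1 : ‖Complex.sinh (z / 2)‖ = Real.sinh (η / 2) := by
    have h3 := norm_sinh_sq (z / 2)
    have h4 : (z / 2).re = η / 2 := by
      have : (z / 2).re = z.re / 2 := by simp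
      rw [this, hzre]
    have h5 : (z / 2).im = q * Real.pi := by
      have : (z / 2).im = z.im / 2 := by simp
      rw [this, hzim]; ring
    rw [h4, h5, Real.sin_nat_mul_pi] at h3
    have h6 : 0 < Real.sinh (η / 2) := Real.sinh_pos_iff.2 (by positivity)
    rw [← abs_of_pos h6, ← abs_of_nonneg (norm_nonneg (Complex.sinh (z / 2)))]
    apply (sq_eq_sq_iff_abs_eq_abs _ _).1
    rw [h3]; ring
  have hs2 : ‖Complex.sinh (b * z / 2)‖ ≤ Real.sinh (b * η / 2) + Real.pi * η := by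
    have h3 := norm_sinh_sq (b * z / 2)
    have h4 : ((b : ℂ) * z / 2).re = b * η / 2 := by
      have : ((b : ℂ) * z / 2).re = b * z.re / 2 := by simp
      rw [this, hzre]
    have h5 : ((b : ℂ) * z / 2).im = Real.pi * (b * q - p) + p * Real.pi := by
      have : ((b : ℂ) * z / 2).im = b * z.im / 2 := by simp
      rw [this, hzim]; ring
    have h7 : Real.sin ((b : ℂ) * z / 2).im ^ 2 ≤ (Real.pi * η) ^ 2 := by
      have h8 : |Real.sin ((b : ℂ) * z / 2).im| = |Real.sin (Real.pi * (b * q - p))| := by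
        rw [h5, Real.sin_add_int_mul_pi, abs_mul]
        have : |((-1 : ℝ) ^ p)| = 1 := by
          rw [abs_zpow]; simp
        rw [this, one_mul]
      rw [← sq_abs, h8]
      have h9 : |Real.sin (Real.pi * (b * q - p))| ≤ Real.pi * η := by
        refine Real.abs_sin_le_abs.trans ?_
        rw [abs_mul, abs_of_pos Real.pi_pos]
        gcongr
      exact pow_le_pow_left₀ (abs_nonneg _) h9 2
    rw [h4] at h3
    have h6 : 0 < Real.sinh (b * η / 2) := Real.sinh_pos_iff.2 (by positivity)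
    apply le_of_sq_le_sq _ (by positivity)
    rw [h3]
    nlinarith [mul_pos h6 (mul_pos Real.pi_pos hη0)]
  have hcosh1 : Real.sinh (η / 2) ≤ η / 2 * Real.cosh (1 / 2) := by
    refine (sinh_le_mul_cosh (by positivity)).trans ?_
    gcongr
    rw [Real.cosh_le_cosh, abs_of_pos (by positivity), abs_of_pos (by positivity)]
    linarith
  have hcosh2 : Real.sinh (b * η / 2) ≤ b * η / 2 * Real.cosh (b / 2) := by
    refine (sinh_le_mul_cosh (by positivity)).trans ?_
    gcongr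
    rw [Real.cosh_le_cosh, abs_of_pos (by positivity), abs_of_pos (by positivity)]
    nlinarith
  have hsp1 : 0 < Real.sinh (η / 2) := Real.sinh_pos_iff.2 (by positivity)
  have hsp2 : 0 < ‖Complex.sinh (b * z / 2)‖ := by
    apply norm_pos_iff.2
    apply sinh_ne_zero_of_re
    have : ((b : ℂ) * z / 2).re = b * z.re / 2 := by simp
    rw [this, hzre]
    positivity
  have hlow : c1 b / η ^ 2 ≤
      ‖1 / (2 * Complex.sinh (z / 2)) * (1 / (2 * Complex.sinh (b * z / 2)))‖ := by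
    rw [norm_mul, norm_div, norm_div, norm_mul, norm_mul, hs1, norm_one]
    have e2 : ‖(2 : ℂ)‖ = 2 := by norm_num
    rw [e2]
    have h3 : (1 : ℝ) / (2 * Real.sinh (η / 2)) * (1 / (2 * ‖Complex.sinh (b * z / 2)‖)) =
        1 / (2 * Real.sinh (η / 2) * (2 * ‖Complex.sinh (b * z / 2)‖)) := by
      field_simp
    rw [h3, c1, div_div]
    apply one_div_le_one_div_of_le (by positivity)
    calc 2 * Real.sinh (η / 2) * (2 * ‖Complex.sinh (b * z / 2)‖)
        ≤ 2 * (η / 2 * Real.cosh (1 / 2)) * (2 * (b * η / 2 * Real.cosh (b / 2) + Real.pi * η)) := by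
          have := hs2.trans (add_le_add_left hcosh2 (Real.pi * η))
          gcongr
      _ = _ := by ring
  have hz2 : ‖1 / ((b : ℂ) * z ^ 2)‖ ≤ 1 / b := by
    rw [norm_div, norm_one, norm_mul, norm_pow, Complex.norm_real, Real.norm_eq_abs, abs_of_pos hb]
    apply one_div_le_one_div_of_le hb
    have : 1 ≤ ‖z‖ ^ 2 := one_le_pow₀ hz1
    nlinarith
  have h3 : c1 b / η ^ 2 - 1 / b ≤ ‖fz b z‖ := by
    unfold fz
    have := norm_sub_norm_le (1 / (2 * Complex.sinh (z / 2)) * (1 / (2 * Complex.sinh (b * z / 2))))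
      (1 / ((b : ℂ) * z ^ 2))
    linarith
  have h4 : δ ^ (-e1) = Q ^ e1 * η ^ (-e1) := by
    rw [hδ, Real.div_rpow hη0.le (by linarith), Real.rpow_neg (by linarith : 0 ≤ Q), div_inv_eq_mul]
    ring
  rw [h4] at hup
  have h5 : c1 b / η ^ 2 ≤ 1 / b + C' * (Q ^ e1 * η ^ (-e1)) := by linarith
  rw [div_le_iff₀ (by positivity)] at h5
  have h6 : η ^ (2 - e1) = η ^ 2 * η ^ (-e1) := by
    rw [← Real.rpow_natCast, ← Real.rpow_add hη0]
    congr 1
  rw [h6]
  calc c1 b ≤ (1 / b + C' * (Q ^ e1 * η ^ (-e1))) * η ^ 2 := h5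
    _ = _ := by ring

theorem liouville_contra {b μ : ℝ} (hb : 0 < b) (hL : LiouvilleWith μ b) (hμ : 1 < μ) {σ : ℝ}
    (h0 : 1 / 2 ≤ σ) (hσ2 : σ < 2) {k : ℕ} (hk : 1 ≤ k) {C ε : ℝ} (hC : 0 ≤ C) (hε0 : 0 ≤ ε)
    (hε1 : ε ≤ 1) (hσε : μ * (σ + 1 / 2 + ε) < 2 * (μ - 1))
    (hΦ : ∀ T : ℝ, 1 ≤ T → ∫ t in (1 : ℝ)..T, gk b σ k t ≤ C * T ^ (1 + ε)) : False := by
  obtain ⟨C', hC', hK⟩ := K_bound hb h0 hσ2 hk hC hε0 hε1 hΦ
  set e1 : ℝ := σ + 1 / 2 + ε with he1
  have he10 : 0 < e1 := by linarith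
  have he12 : e1 < 2 := by nlinarith
  obtain ⟨D, hD0, hD⟩ := hL.exists_pos
  -- the right-hand side tends to zero along `n`
  have hlim1 : Tendsto (fun n : ℕ => D * (n : ℝ) ^ (-(μ - 1))) atTop (𝓝 0) := by
    have h1 := ((tendsto_rpow_neg_atTop (y := μ - 1) (by linarith)).comp
      tendsto_natCast_atTop_atTop).const_mul D
    simpa using h1
  have hlim2 : Tendsto (fun n : ℕ => (D * (n : ℝ) ^ (-(μ - 1))) ^ 2 / b +
      C' * (8 : ℝ) ^ e1 * D ^ (2 - e1) * (n : ℝ) ^ (-((μ - 1) * (2 - e1) - e1))) atTop (𝓝 0) := by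
    have h1 := ((tendsto_rpow_neg_atTop (y := (μ - 1) * (2 - e1) - e1) (by nlinarith)).comp
      tendsto_natCast_atTop_atTop).const_mul (C' * (8 : ℝ) ^ e1 * D ^ (2 - e1))
    have h2 := ((hlim1.pow 2).div_const b).add h1
    simpa using h2
  have hev1 := (tendsto_order.1 hlim1).2 1 one_pos
  have hev2 := (tendsto_order.1 hlim2).2 (c1 b) (c1_pos hb)
  obtain ⟨n, ⟨hn1, m, hm1, hm2⟩, hn2, hn3⟩ := (hD.and_eventually (hev1.and hev2)).exists
  have hn0 : (0 : ℝ) < n := by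
    have : 0 < n := hn1
    exact_mod_cast this
  set η : ℝ := D * (n : ℝ) ^ (-(μ - 1)) with hη
  have hη0 : 0 < η := by positivity
  have hpq : |b * n - m| ≤ η := by
    have h1 : b * n - m = (b - m / n) * n := by field_simp
    rw [h1, abs_mul, abs_of_pos hn0]
    calc |b - m / n| * n ≤ D / (n : ℝ) ^ μ * n := by gcongr
      _ = η := by
        rw [hη, neg_sub, Real.rpow_sub hn0, Real.rpow_one]
        field_simp
  have h1 := key_ineq hb h0 hσ2 hK hn1 hη0 hn2.le hpq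
  have h2 : C' * (8 * (n : ℝ)) ^ e1 * η ^ (2 - e1) =
      C' * (8 : ℝ) ^ e1 * D ^ (2 - e1) * (n : ℝ) ^ (-((μ - 1) * (2 - e1) - e1)) := by
    rw [hη, Real.mul_rpow (by norm_num) hn0.le, Real.mul_rpow hD0.le (by positivity),
      ← Real.rpow_mul hn0.le]
    have h3 : (n : ℝ) ^ (-((μ - 1) * (2 - e1) - e1)) = (n : ℝ) ^ e1 * (n : ℝ) ^ (-(μ - 1) * (2 - e1)) := by
      rw [← Real.rpow_add hn0]; congr 1; ring
    rw [h3]
    ring
  rw [h2] at h1
  linarith

end Pool.Agent.H9R3.BZ
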