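import Pool.Agent.H9R3.BZ.K

set_option autoImplicit false

/-!
# Generic weights
-/

namespace Pool.Agent.H9R3.BZ

open Filter Topology Set MeasureTheory Complex

theorem mom_mono {b : ℝ} (hb : 0 < b) (k : ℕ) (σ : ℝ) {T T' : ℝ} (h1 : 1 ≤ T) (h : T ≤ T') :
    mom b k σ T ≤ mom b k σ T' := by
  have hc : ∀ x : ℝ, 1 ≤ x → IntervalIntegrable (fun t : ℝ => ‖Zb b (σ + t * I)‖ ^ (2 * k)) volume 1 x := by
    intro x hx
    apply ContinuousOn.intervalIntegrable
    rw [uIcc_of_le hx]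
    exact ((Zb_cont hb σ).norm.pow _).mono fun t ht => ht.1
  unfold mom
  have h2 := intervalIntegral.integral_add_adjacent_intervals (hc T h1)
    ((hc T h1).symm.trans (hc T' (h1.trans h)))
  rw [← h2]
  have h3 : 0 ≤ ∫ t in T..T', ‖Zb b (σ + t * I)‖ ^ (2 * k) :=
    intervalIntegral.integral_nonneg h fun t _ => by positivity
  linarith

theorem int_gk {b : ℝ} (hb : 0 < b) (k : ℕ) (σ : ℝ) {T : ℝ} (h1 : 1 ≤ T) :
    ∫ t in (1 : ℝ)..T, gk b σ k t = (T - 1) + mom b k σ T := by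
  have h2 : ∫ t in (1 : ℝ)..T, gk b σ k t = ∫ t in (1 : ℝ)..T, (1 + ‖Zb b (σ + t * I)‖ ^ (2 * k)) := by
    refine intervalIntegral.integral_congr fun t ht => ?_
    rw [uIcc_of_le h1] at ht
    unfold gk
    rw [max_eq_left ht.1]
  have hc : IntervalIntegrable (fun t : ℝ => ‖Zb b (σ + t * I)‖ ^ (2 * k)) volume 1 T := by
    apply ContinuousOn.intervalIntegrable
    rw [uIcc_of_le h1]
    exact ((Zb_cont hb σ).norm.pow _).mono fun t ht => ht.1
  rw [h2, intervalIntegral.integral_add (by simp) hc]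
  simp [mom]

/-- Failure of the moment bound for weights with large irrationality exponent. -/
theorem not_isBigO {b μ : ℝ} (hb : 0 < b) (hL : LiouvilleWith μ b) (hμ : 1 < μ) {σ : ℝ}
    (h0 : 1 / 2 ≤ σ) {k : ℕ} (hk : 1 ≤ k) {ε : ℝ} (hε0 : 0 ≤ ε)
    (hσε : μ * (σ + 1 / 2 + ε) < 2 * (μ - 1)) :
    ¬ ((fun T => mom b k σ T) =O[atTop] fun T : ℝ => T ^ (1 + ε)) := by
  intro hO
  have hσ2 : σ < 2 := by
    by_contra hcon
    push Not at hcon
    nlinarith
  have hε1 : ε ≤ 1 := by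
    by_contra hcon
    push Not at hcon
    nlinarith
  obtain ⟨C, hC⟩ := hO.bound
  obtain ⟨T0, hT0⟩ := eventually_atTop.1 hC
  set N : ℝ := max T0 1 with hN
  have hN1 : 1 ≤ N := le_max_right _ _
  have hTN : T0 ≤ N := le_max_left _ _
  refine liouville_contra hb hL hμ h0 hσ2 hk (C := 1 + |C| * N ^ (1 + ε)) (ε := ε) (by positivity)
    hε0 hε1 hσε fun T hT => ?_
  rw [int_gk hb k σ hT]
  have h1 : mom b k σ T ≤ mom b k σ (N * T) := mom_mono hb k σ hT (by nlinarith)
  have hNT : 1 ≤ N * T := by nlinarith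
  have h2 := hT0 (N * T) (by nlinarith)
  rw [Real.norm_eq_abs, Real.norm_eq_abs, abs_of_pos (Real.rpow_pos_of_pos (by linarith) _)] at h2
  have h3 := (le_abs_self _).trans h2
  have h5 : C * (N * T) ^ (1 + ε) ≤ |C| * (N ^ (1 + ε) * T ^ (1 + ε)) := by
    rw [← Real.mul_rpow (by linarith) (by linarith)]
    exact mul_le_mul_of_nonneg_right (le_abs_self C) (Real.rpow_nonneg (by linarith) _)
  have h7 : T ≤ T ^ (1 + ε) := by
    have := Real.rpow_le_rpow_of_exponent_le hT (by linarith : (1 : ℝ) ≤ 1 + ε)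
    rwa [Real.rpow_one] at this
  calc T - 1 + mom b k σ T ≤ T ^ (1 + ε) + |C| * (N ^ (1 + ε) * T ^ (1 + ε)) := by linarith
    _ = _ := by ring

/-- The span of `1, b` over the rationals has dimension two when `b` is irrational. -/
theorem finrank_two {b : ℝ} (hb : Irrational b) :
    Module.finrank ℚ (Submodule.span ℚ (Set.range (![1, b] : Fin 2 → ℝ))) = 2 := by
  have hli : LinearIndependent ℚ (![1, b] : Fin 2 → ℝ) := by
    rw [LinearIndependent.pair_iff]
    intro s t h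
    have h' : (s : ℝ) + (t : ℝ) * b = 0 := by
      simpa [Rat.smul_def] using h
    by_cases ht : t = 0
    · subst ht
      simp at h'
      exact ⟨h', rfl⟩
    · exfalso
      have ht' : (t : ℝ) ≠ 0 := by exact_mod_cast ht
      apply hb
      refine ⟨-s / t, ?_⟩
      push_cast
      field_simp
      linarith
  rw [finrank_span_eq_card hli]
  simp

/-- behaviour at the possible poles -/
theorem Zb_pole {b : ℝ} (hb : 0 < b) (j : ℕ) (h1 : 1 ≤ j) (h2 : j ≤ 2) :
    ∃ c : ℂ, Tendsto (fun s : ℂ => (s - j) * Zb b s) (𝓝[≠] (j : ℂ)) (𝓝 c) := by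
  have hF : Continuous (FF (GG b)) := (FF_diff (by positivity : 0 < (1 + b) / 4) (chain hb)).continuous
  have hj : j = 1 ∨ j = 2 := by omega
  rcases hj with rfl | rfl
  · refine ⟨FF (GG b) ((1 : ℂ) - 2) / ((1 : ℂ) - 2), ?_⟩
    have h3 : Tendsto (fun s : ℂ => FF (GG b) (s - 2) / (s - 2)) (𝓝[≠] (1 : ℂ))
        (𝓝 (FF (GG b) ((1 : ℂ) - 2) / ((1 : ℂ) - 2))) := by
      have h4 : ContinuousAt (fun s : ℂ => FF (GG b) (s - 2) / (s - 2)) 1 := by
        refine ContinuousAt.div ?_ (by fun_prop) (by norm_num)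
        exact (hF.comp (continuous_id.sub continuous_const)).continuousAt
      exact h4.tendsto.mono_left nhdsWithin_le_nhds
    push_cast
    refine h3.congr' ?_
    filter_upwards [self_mem_nhdsWithin] with s hs
    have hs1 : s - 1 ≠ 0 := sub_ne_zero.2 hs
    unfold Zb
    by_cases h5 : s - 2 = 0
    · rw [h5]; simp
    · field_simp
  · refine ⟨FF (GG b) ((2 : ℂ) - 2) / ((2 : ℂ) - 1), ?_⟩
    have h3 : Tendsto (fun s : ℂ => FF (GG b) (s - 2) / (s - 1)) (𝓝[≠] (2 : ℂ))
        (𝓝 (FF (GG b) ((2 : ℂ) - 2) / ((2 : ℂ) - 1))) := by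
      have h4 : ContinuousAt (fun s : ℂ => FF (GG b) (s - 2) / (s - 1)) 2 := by
        refine ContinuousAt.div ?_ (by fun_prop) (by norm_num)
        exact (hF.comp (continuous_id.sub continuous_const)).continuousAt
      exact h4.tendsto.mono_left nhdsWithin_le_nhds
    push_cast
    refine h3.congr' ?_
    filter_upwards [self_mem_nhdsWithin] with s hs
    have hs1 : s - 2 ≠ 0 := sub_ne_zero.2 hs
    unfold Zb
    by_cases h5 : s - 1 = 0
    · rw [h5]; simp
    · field_simp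

end Pool.Agent.H9R3.BZ
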